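import Mathlib

/-!
Probing a convex polygon by chord lengths: definitions.
-/

namespace Pool.MPf9c708

/-- The Euclidean plane. -/
abbrev Plane := EuclideanSpace ℝ (Fin 2)

/-- A line in the plane, given by a point and a direction. -/
structure Line where
  /-- a point of the line -/
  base : Plane
  /-- the direction of the line -/
  dir : Plane
  dir_ne : dir ≠ 0

/-- The set of points of a line. -/
def Line.carrier (l : Line) : Set Plane := {x | ∃ t : ℝ, x = l.base + t • l.dir}

/-- `P` is a convex polygon with exactly `n` vertices: the convex hull of `n` points in convex
position. -/
def IsConvexPolygon (n : ℕ) (P : Set Plane) : Prop :=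
  ∃ S : Set Plane, S.Finite ∧ S.ncard = n ∧ ConvexIndependent ℝ ((↑) : S → Plane) ∧
    P = convexHull ℝ S

/-- The answer to the probe `l`: the length of the segment `l ∩ P`. -/
noncomputable def chordLength (l : Line) (P : Set Plane) : ℝ := Metric.diam (l.carrier ∩ P)

/-- An adaptive probing strategy: it chooses the next line from the answers received so far, or
stops (`none`). -/
abbrev Strategy := List ℝ → Option Line

/-- One step of the strategy `σ` against the polygon `P`, with `h` the list of answers so far. -/
noncomputable def step (σ : Strategy) (P : Set Plane) (h : List ℝ) : List ℝ :=
  match σ h with
  | none => h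
  | some l => h ++ [chordLength l P]

/-- The list of answers received by `σ` against `P` in its first `j` steps. -/
noncomputable def answers (σ : Strategy) (P : Set Plane) (j : ℕ) : List ℝ := (step σ P)^[j] []

/-- The possible polygons: convex `n`-gons with `p` as an interior point. -/
def Candidate (n : ℕ) (p : Plane) (P : Set Plane) : Prop :=
  IsConvexPolygon n P ∧ p ∈ interior P

/-- The strategy `σ` determines convex `n`-gons with interior point `p` with at most `m` probes:
each line it chooses meets the interior of every candidate consistent with the answers so far, it
has stopped after at most `m` probes, and then the true polygon is the only consistent candidate. -/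
def Determines (n m : ℕ) (p : Plane) (σ : Strategy) : Prop :=
  ∀ P, Candidate n p P →
    (∀ j l, σ (answers σ P j) = some l →
      ∀ P', Candidate n p P' → answers σ P' j = answers σ P j →
        (l.carrier ∩ interior P').Nonempty) ∧
    σ (answers σ P m) = none ∧
    (∀ P', Candidate n p P' → answers σ P' m = answers σ P m → P' = P)

end Pool.MPf9c708
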