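import Pool.Agent.Lib.MP_f9c708_lc.LemF

namespace Pool.MPf9c708

open Set

theorem GoodTri.mono {p : Plane} {U V : Set Plane} {f g : Plane →ᵃ[ℝ] ℝ} (h : GoodTri p U f g)
    (hV : ∀ v ∈ V, v ∈ U ∨ -v ∈ U) : GoodTri p V f g := by
  obtain ⟨g1, g2, g3, g4, g5⟩ := h
  refine ⟨g1, g2, g3, g4, ?_⟩
  intro v hv l hl
  rcases hV v hv with h | h
  · exact g5 v h l hl
  · exact g5 _ h l hl.neg

theorem cr_lin (u1 u2 : Plane) (a b c d : ℝ) :
    cr (a • u1 + b • u2) (c • u1 + d • u2) = (a * d - b * c) * cr u1 u2 := by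
  unfold cr
  simp only [PiLp.add_apply, PiLp.smul_apply, smul_eq_mul]
  ring

theorem cr_neg_left (u v : Plane) : cr (-u) v = -cr u v := by
  unfold cr
  simp only [PiLp.neg_apply]
  ring

theorem cr_neg_right (u v : Plane) : cr u (-v) = -cr u v := by
  unfold cr
  simp only [PiLp.neg_apply]
  ring

theorem cr_comm (u v : Plane) : cr u v = -cr v u := by
  unfold cr
  ring

theorem cr_self (u : Plane) : cr u u = 0 := by
  unfold cr
  ring

theorem norm_sq (u : Plane) : ‖u‖ ^ 2 = u 0 ^ 2 + u 1 ^ 2 := by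
  rw [EuclideanSpace.norm_sq_eq, Fin.sum_univ_two]
  simp

theorem unit_iff (u : Plane) : ‖u‖ = 1 ↔ u 0 ^ 2 + u 1 ^ 2 = 1 := by
  rw [← norm_sq]
  constructor
  · intro h; rw [h]; norm_num
  · intro h
    have h0 : 0 ≤ ‖u‖ := norm_nonneg u
    nlinarith

/-- Strict triangle inequality. -/
theorem coeff_lt {u1 u2 u3 : Plane} (hu1 : ‖u1‖ = 1) (hu2 : ‖u2‖ = 1) (hu3 : ‖u3‖ = 1)
    {m k : ℝ} (hm : 0 < m) (hk : 0 < k) (h3 : u3 = (-m) • u1 + k • u2)
    (hcr : cr u1 u3 ≠ 0) : k < 1 + m := by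
  rw [unit_iff] at hu1 hu2 hu3
  have h20 : k * u2 0 = u3 0 + m * u1 0 := by
    have := congrArg (fun v : Plane => v 0) h3
    simp only [PiLp.add_apply, PiLp.smul_apply, smul_eq_mul] at this
    linarith
  have h21 : k * u2 1 = u3 1 + m * u1 1 := by
    have := congrArg (fun v : Plane => v 1) h3
    simp only [PiLp.add_apply, PiLp.smul_apply, smul_eq_mul] at this
    linarith
  have hk2 : k ^ 2 = 1 + 2 * m * (u1 0 * u3 0 + u1 1 * u3 1) + m ^ 2 := by
    have : (k * u2 0) ^ 2 + (k * u2 1) ^ 2 = k ^ 2 := by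
      have : (k * u2 0) ^ 2 + (k * u2 1) ^ 2 = k ^ 2 * (u2 0 ^ 2 + u2 1 ^ 2) := by ring
      rw [this, hu2, mul_one]
    rw [← this, h20, h21]
    linear_combination hu3 + m ^ 2 * hu1
  have hin : (u1 0 * u3 0 + u1 1 * u3 1) ^ 2 + (cr u1 u3) ^ 2 = 1 := by
    unfold cr
    have : (u1 0 * u3 0 + u1 1 * u3 1) ^ 2 + (u1 0 * u3 1 - u1 1 * u3 0) ^ 2
      = (u1 0 ^ 2 + u1 1 ^ 2) * (u3 0 ^ 2 + u3 1 ^ 2) := by ring
    rw [this, hu1, hu3, mul_one]
  have hcr2 : 0 < (cr u1 u3) ^ 2 := by positivity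
  have hlt : u1 0 * u3 0 + u1 1 * u3 1 < 1 := by nlinarith
  nlinarith

theorem lemmaF {p u1 u2 u3 : Plane} (hu1 : ‖u1‖ = 1) (hu2 : ‖u2‖ = 1) (hu3 : ‖u3‖ = 1)
    (h12 : cr u1 u2 ≠ 0) (h13 : cr u1 u3 ≠ 0) (h23 : cr u2 u3 ≠ 0) (l : Line) :
    ∃ f g, GoodTri p {u1, u2, u3} f g ∧ ∀ v, VertexOf f g v → v ∉ l.carrier := by
  -- normalised case
  have main : ∀ w1 w3 : Plane, ‖w1‖ = 1 → ‖w3‖ = 1 → cr w1 u2 ≠ 0 → cr w1 w3 ≠ 0 →
      ∀ m k : ℝ, 0 < m → 0 < k → w3 = (-m) • w1 + k • u2 →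
      ∃ f g, GoodTri p {w1, u2, w3} f g ∧ ∀ v, VertexOf f g v → v ∉ l.carrier := by
    intro w1 w3 hw1 hw3 hc12 hc13 m k hm hk h3
    obtain ⟨s, t, h⟩ := exists_cframe p w1 u2 hc12
    obtain ⟨A, B, C, hAB, heq⟩ := line_eq h.frame l
    obtain ⟨f, g, hG, hv⟩ := lemmaF_norm hw1 hu2 hw3 h hm hk
      (coeff_lt hw1 hu2 hw3 hm hk h3 hc13) h3 (C := C) hAB
    exact ⟨f, g, hG, fun v h1 h2 => hv v h1 ((heq v).mp h2)⟩
  obtain ⟨s, t, h⟩ := exists_cframe p u1 u2 h12
  obtain ⟨x, y, hxy⟩ : ∃ x y : ℝ, u3 = x • u1 + y • u2 := by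
    refine ⟨s (p + u3), t (p + u3), ?_⟩
    have := h.eq (p + u3)
    rw [add_assoc] at this
    exact add_left_cancel this
  have hy : y ≠ 0 := by
    intro h0
    apply h13
    have : u1 = (1 : ℝ) • u1 + (0 : ℝ) • u2 := by module
    rw [hxy]
    nth_rewrite 1 [this]
    rw [cr_lin, h0]; ring
  have hx : x ≠ 0 := by
    intro h0
    apply h23
    have : u2 = (0 : ℝ) • u1 + (1 : ℝ) • u2 := by module
    rw [hxy]
    nth_rewrite 1 [this]
    rw [cr_lin, h0]; ring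
  rcases lt_or_gt_of_ne hx with hx | hx <;> rcases lt_or_gt_of_ne hy with hy | hy
  · -- x < 0, y < 0 : replace u3, u1 by negatives
    obtain ⟨f, g, hG, hv⟩ := main (-u1) (-u3) (by rwa [norm_neg]) (by rwa [norm_neg])
      (by rw [cr_neg_left]; exact neg_ne_zero.mpr h12)
      (by rw [cr_neg_left, cr_neg_right, neg_neg]; exact h13) (-x) (-y) (by linarith)
      (by linarith) (by rw [hxy]; module)
    refine ⟨f, g, hG.mono ?_, hv⟩
    rintro v (rfl | rfl | rfl) <;> simp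
  · obtain ⟨f, g, hG, hv⟩ := main u1 u3 hu1 hu3 h12 h13 (-x) y (by linarith) hy
      (by rw [hxy]; module)
    exact ⟨f, g, hG, hv⟩
  · -- x > 0, y < 0 : replace u3
    obtain ⟨f, g, hG, hv⟩ := main u1 (-u3) hu1 (by rwa [norm_neg]) h12
      (by rw [cr_neg_right]; exact neg_ne_zero.mpr h13) x (-y) hx (by linarith)
      (by rw [hxy]; module)
    refine ⟨f, g, hG.mono ?_, hv⟩
    rintro v (rfl | rfl | rfl) <;> simp
  · -- x > 0, y > 0 : replace u1
    obtain ⟨f, g, hG, hv⟩ := main (-u1) u3 (by rwa [norm_neg]) hu3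
      (by rw [cr_neg_left]; exact neg_ne_zero.mpr h12)
      (by rw [cr_neg_left]; exact neg_ne_zero.mpr h13) x y hx hy
      (by rw [hxy]; module)
    refine ⟨f, g, hG.mono ?_, hv⟩
    rintro v (rfl | rfl | rfl) <;> simp

/-- Parallel unit vectors. -/
theorem parallel {u v : Plane} (hu : ‖u‖ = 1) (hv : ‖v‖ = 1) (h : cr u v = 0) :
    v = u ∨ v = -u := by
  rw [unit_iff] at hu hv
  unfold cr at h
  set c := u 0 * v 0 + u 1 * v 1 with hc
  have h0 : v 0 = c * u 0 := by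
    rw [hc]
    linear_combination (-v 0) * hu + (-u 1) * h
  have h1 : v 1 = c * u 1 := by
    rw [hc]
    linear_combination (-v 1) * hu + u 0 * h
  have hc2 : c ^ 2 = 1 := by
    rw [h0, h1] at hv
    have : c ^ 2 * (u 0 ^ 2 + u 1 ^ 2) = 1 := by linarith
    rwa [hu, mul_one] at this
  have hc3 : (c - 1) * (c + 1) = 0 := by linear_combination hc2
  rcases mul_eq_zero.mp hc3 with h' | h'
  · left
    have hc1 : c = 1 := by linarith
    ext i
    fin_cases i
    · show v 0 = u 0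
      rw [h0, hc1, one_mul]
    · show v 1 = u 1
      rw [h1, hc1, one_mul]
  · right
    have hc1 : c = -1 := by linarith
    ext i
    fin_cases i
    · show v 0 = (-u) 0
      rw [h0, hc1, PiLp.neg_apply]; ring
    · show v 1 = (-u) 1
      rw [h1, hc1, PiLp.neg_apply]; ring

/-- The unit vector perpendicular to `u`. -/
noncomputable def perp (u : Plane) : Plane := !₂[-(u 1), u 0]

theorem perp_zero (u : Plane) : perp u 0 = -(u 1) := rfl

theorem perp_one (u : Plane) : perp u 1 = u 0 := rfl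

theorem norm_perp {u : Plane} (hu : ‖u‖ = 1) : ‖perp u‖ = 1 := by
  rw [unit_iff] at hu ⊢
  rw [perp_zero, perp_one]
  linarith

theorem cr_perp {u : Plane} (hu : ‖u‖ = 1) : cr u (perp u) ≠ 0 := by
  rw [unit_iff] at hu
  unfold cr
  rw [perp_zero, perp_one]
  intro h
  nlinarith

theorem fill2 {v1 v2 : Plane} (h1 : ‖v1‖ = 1) (h2 : ‖v2‖ = 1) :
    ∃ u1 u2 : Plane, ‖u1‖ = 1 ∧ ‖u2‖ = 1 ∧ cr u1 u2 ≠ 0 ∧
      ∀ v ∈ ({v1, v2} : Set Plane), v ∈ ({u1, u2} : Set Plane) ∨ -v ∈ ({u1, u2} : Set Plane) := by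
  by_cases h : cr v1 v2 = 0
  · refine ⟨v1, perp v1, h1, norm_perp h1, cr_perp h1, ?_⟩
    rintro v (rfl | rfl)
    · left; simp
    · rcases parallel h1 h2 h with rfl | rfl
      · left; simp
      · right; simp
  · refine ⟨v1, v2, h1, h2, h, ?_⟩
    intro v hv
    exact Or.inl hv

/-- A unit vector not parallel to two given ones. -/
theorem exists_third {u1 u2 : Plane} (hcr : cr u1 u2 ≠ 0) :
    ∃ u3 : Plane, ‖u3‖ = 1 ∧ cr u1 u3 ≠ 0 ∧ cr u2 u3 ≠ 0 := by
  have hsum : u1 + u2 ≠ 0 := by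
    intro h
    have : u2 = -u1 := by
      rw [eq_neg_iff_add_eq_zero, add_comm]; exact h
    rw [this, cr_neg_right, cr_self, neg_zero] at hcr
    exact hcr rfl
  have hn : ‖u1 + u2‖ ≠ 0 := norm_ne_zero_iff.mpr hsum
  have hsm : ∀ (c : ℝ) (a b : Plane), cr a (c • b) = c * cr a b := by
    intro c a b
    unfold cr
    simp only [PiLp.smul_apply, smul_eq_mul]
    ring
  have hadd : ∀ (a b c : Plane), cr a (b + c) = cr a b + cr a c := by
    intro a b c
    unfold cr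
    simp only [PiLp.add_apply]
    ring
  refine ⟨‖u1 + u2‖⁻¹ • (u1 + u2), ?_, ?_, ?_⟩
  · rw [norm_smul, norm_inv, norm_norm, inv_mul_cancel₀ hn]
  · rw [hsm, hadd, cr_self, zero_add]
    exact mul_ne_zero (inv_ne_zero hn) hcr
  · rw [hsm, hadd, cr_self, add_zero, cr_comm]
    exact mul_ne_zero (inv_ne_zero hn) (neg_ne_zero.mpr hcr)

theorem fill3 {v1 v2 v3 : Plane} (h1 : ‖v1‖ = 1) (h2 : ‖v2‖ = 1) (h3 : ‖v3‖ = 1) :
    ∃ u1 u2 u3 : Plane, ‖u1‖ = 1 ∧ ‖u2‖ = 1 ∧ ‖u3‖ = 1 ∧ cr u1 u2 ≠ 0 ∧ cr u1 u3 ≠ 0 ∧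
      cr u2 u3 ≠ 0 ∧ ∀ v ∈ ({v1, v2, v3} : Set Plane), v ∈ ({u1, u2, u3} : Set Plane) ∨
        -v ∈ ({u1, u2, u3} : Set Plane) := by
  by_cases hgen : cr v1 v2 ≠ 0 ∧ cr v1 v3 ≠ 0 ∧ cr v2 v3 ≠ 0
  · exact ⟨v1, v2, v3, h1, h2, h3, hgen.1, hgen.2.1, hgen.2.2, fun v hv => Or.inl hv⟩
  · -- two of the vectors suffice
    obtain ⟨w1, w2, hw1, hw2, hcov⟩ : ∃ w1 w2 : Plane, ‖w1‖ = 1 ∧ ‖w2‖ = 1 ∧
        ∀ v ∈ ({v1, v2, v3} : Set Plane), v ∈ ({w1, w2} : Set Plane) ∨
          -v ∈ ({w1, w2} : Set Plane) := by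
      by_cases h12 : cr v1 v2 = 0
      · refine ⟨v1, v3, h1, h3, ?_⟩
        rintro v (rfl | rfl | rfl)
        · left; simp
        · rcases parallel h1 h2 h12 with rfl | rfl
          · left; simp
          · right; simp
        · left; simp
      · by_cases h13 : cr v1 v3 = 0
        · refine ⟨v1, v2, h1, h2, ?_⟩
          rintro v (rfl | rfl | rfl)
          · left; simp
          · left; simp
          · rcases parallel h1 h3 h13 with rfl | rfl
            · left; simp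
            · right; simp
        · have h23 : cr v2 v3 = 0 := by
            by_contra h23
            exact hgen ⟨h12, h13, h23⟩
          refine ⟨v1, v2, h1, h2, ?_⟩
          rintro v (rfl | rfl | rfl)
          · left; simp
          · left; simp
          · rcases parallel h2 h3 h23 with rfl | rfl
            · left; simp
            · right; simp
    obtain ⟨u1, u2, hu1, hu2, hcr, hcov2⟩ := fill2 hw1 hw2
    obtain ⟨u3, hu3, hc13, hc23⟩ := exists_third hcr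
    refine ⟨u1, u2, u3, hu1, hu2, hu3, hcr, hc13, hc23, ?_⟩
    have hsub : ({u1, u2} : Set Plane) ⊆ {u1, u2, u3} := by
      rintro x (rfl | rfl) <;> simp
    intro v hv
    rcases hcov v hv with h | h
    · rcases hcov2 v h with h' | h'
      · exact Or.inl (hsub h')
      · exact Or.inr (hsub h')
    · rcases hcov2 _ h with h' | h'
      · exact Or.inr (hsub h')
      · rw [neg_neg] at h'
        exact Or.inl (hsub h')

/-- An `n`-gon inside a triangle, indistinguishable from it by the first `q` probes. -/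
theorem tri_poly {H q : ℕ} {p : Plane} {σ : Strategy}
    {f g : Plane →ᵃ[ℝ] ℝ} (hfg : Frame f g)
    (h1 : 0 < f p) (h2 : 0 < g p) (h3 : 0 < third f g p)
    (hoff : ∀ j < q, ∀ l, σ (answers σ (Tri f g) j) = some l →
      ∀ v, VertexOf f g v → v ∉ l.carrier) :
    ∃ P'', IsConvexPolygon (3 + H) P'' ∧ p ∈ interior P'' ∧ P'' ⊆ Tri f g ∧
      answers σ P'' q = answers σ (Tri f g) q := by
  obtain ⟨va, hva1, hva2⟩ := hfg.surj 0 0
  obtain ⟨δ, hδ⟩ := tri_corner hfg h1 h2 h3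
  have ga : Good 3 p (Tri f g) va (fun P'' => IsConvexPolygon (3 + H) P'' →
      answers σ P'' 0 = answers σ (Tri f g) 0) :=
    ⟨f, g, δ, hδ, hva1, hva2, fun _ _ _ => rfl⟩
  have gj : ∀ j ≤ q, Good 3 p (Tri f g) va (fun P'' => IsConvexPolygon (3 + H) P'' →
        answers σ P'' j = answers σ (Tri f g) j) := by
    intro j
    induction j with
    | zero => intro _; exact ga
    | succ j ih =>
      intro hj
      have := (ih (by omega)).probe (fun l hl => hoff j (by omega) l hl va (Or.inl ⟨hva1, hva2⟩))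
      rwa [← answers_succ] at this
  obtain ⟨P'', hn, hp, hsub, hF⟩ := (gj q le_rfl).exists_poly H
  exact ⟨P'', hn, hp, hsub, hF hn⟩

/-- The histories with all answers equal to one. -/
noncomputable def K (σ : Strategy) : ℕ → List ℝ
  | 0 => []
  | j + 1 => match σ (K σ j) with
    | none => K σ j
    | some _ => K σ j ++ [1]

theorem answers_eq_K {p : Plane} {σ : Strategy} {U : Set Plane} {f g : Plane →ᵃ[ℝ] ℝ}
    (hG : GoodTri p U f g) {q : ℕ}
    (hcov : ∀ i < q, ∀ l, σ (K σ i) = some l → ∃ u ∈ U, CentralLine p u l) :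
    ∀ j ≤ q, answers σ (Tri f g) j = K σ j := by
  intro j
  induction j with
  | zero => intro _; rfl
  | succ j ih =>
    intro hj
    rw [answers_succ, ih (by omega)]
    cases hσ : σ (K σ j) with
    | none =>
      simp only [step, K, hσ]
    | some l =>
      obtain ⟨u, hu, hl⟩ := hcov j (by omega) l hσ
      simp only [step, K, hσ]
      rw [(hG.2.2.2.2 u hu l hl).1]

theorem off_of_good {p : Plane} {σ : Strategy} {U : Set Plane} {f g : Plane →ᵃ[ℝ] ℝ}
    (hG : GoodTri p U f g) {q : ℕ}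
    (hcov : ∀ i < q, ∀ l, σ (K σ i) = some l → ∃ u ∈ U, CentralLine p u l) :
    ∀ j < q, ∀ l, σ (answers σ (Tri f g) j) = some l →
      ∀ v, VertexOf f g v → v ∉ l.carrier := by
  intro j hj l hl v hv
  rw [answers_eq_K hG hcov j hj.le] at hl
  obtain ⟨u, hu, hlu⟩ := hcov j hj l hl
  exact (hG.2.2.2.2 u hu l hlu).2 v hv

/-- The first three probes, as long as all answers are one, pass through `p`. -/
theorem central_probe {n : ℕ} (hn : 3 ≤ n) {p : Plane} {σ : Strategy} (hval : Valid n p σ)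
    {q : ℕ} {v1 v2 : Plane} (h1 : ‖v1‖ = 1) (h2 : ‖v2‖ = 1)
    (hcov : ∀ i < q, ∀ l, σ (K σ i) = some l → ∃ u ∈ ({v1, v2} : Set Plane), CentralLine p u l) :
    ∀ l, σ (K σ q) = some l → p ∈ l.carrier := by
  intro l hl
  by_contra hp
  obtain ⟨u1, u2, hu1, hu2, hcr, hc⟩ := fill2 h1 h2
  obtain ⟨f, g, hG0, hdis⟩ := lemmaC hu1 hu2 hcr l hp
  have hG := hG0.mono hc
  obtain ⟨P'', hP1, hP2, hsub, hans⟩ := tri_poly (H := n - 3) (q := q) hG.1 hG.2.1 hG.2.2.1
    hG.2.2.2.1 (off_of_good hG hcov)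
  rw [show 3 + (n - 3) = n by omega] at hP1
  rw [answers_eq_K hG hcov q le_rfl] at hans
  obtain ⟨x, hx1, hx2⟩ := hval P'' ⟨hP1, hP2⟩ q l (by rw [hans]; exact hl)
  exact hdis x hx1 (hsub (interior_subset hx2))

theorem exists_unit : ∃ u : Plane, ‖u‖ = 1 := by
  refine ⟨EuclideanSpace.single 0 1, ?_⟩
  rw [PiLp.norm_single]
  simp

/-- A direction for each of the first probes. -/
theorem exists_dir {p : Plane} {σ : Strategy} {j : ℕ}
    (h : ∀ l, σ (K σ j) = some l → p ∈ l.carrier) :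
    ∃ u : Plane, ‖u‖ = 1 ∧ ∀ l, σ (K σ j) = some l → CentralLine p u l := by
  cases hσ : σ (K σ j) with
  | none =>
    obtain ⟨u, hu⟩ := exists_unit
    exact ⟨u, hu, fun l hl => absurd hl (by simp)⟩
  | some l =>
    obtain ⟨u, hu, hl⟩ := central_of_mem (h l hσ)
    refine ⟨u, hu, fun l' hl' => ?_⟩
    have : l = l' := by simpa using hl'
    rw [← this]; exact hl

/-- Two distinct polygons that the strategy cannot distinguish within `3 n - 5` probes. -/
theorem two_polys {n : ℕ} (hn : 4 ≤ n) {p : Plane} {σ : Strategy} (hval : Valid n p σ) :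
    ∃ P1 P2, Candidate n p P1 ∧ Candidate n p P2 ∧ P1 ≠ P2 ∧
        answers σ P1 (3 * n - 5) = answers σ P2 (3 * n - 5) := by
  obtain ⟨u, hu⟩ := exists_unit
  -- the first three probes
  obtain ⟨v0, hv0, hc0⟩ := exists_dir (j := 0) (central_probe (by omega) hval (q := 0) hu hu
    (fun i hi => absurd hi (by omega)))
  obtain ⟨v1, hv1, hc1⟩ := exists_dir (j := 1) (central_probe (by omega) hval (q := 1) hv0 hv0
    (fun i hi l hl => by
      obtain rfl : i = 0 := by omega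
      exact ⟨v0, by simp, hc0 l hl⟩))
  obtain ⟨v2, hv2, hc2⟩ := exists_dir (j := 2) (central_probe (by omega) hval (q := 2) hv0 hv1
    (fun i hi l hl => by
      obtain rfl | rfl : i = 0 ∨ i = 1 := by omega
      · exact ⟨v0, by simp, hc0 l hl⟩
      · exact ⟨v1, by simp, hc1 l hl⟩))
  obtain ⟨u1, u2, u3, hu1, hu2, hu3, h12, h13, h23, hcov⟩ := fill3 hv0 hv1 hv2
  have hcov3 : ∀ i < 3, ∀ l, σ (K σ i) = some l →
      ∃ u ∈ ({v0, v1, v2} : Set Plane), CentralLine p u l := by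
    intro i hi l hl
    obtain rfl | rfl | rfl : i = 0 ∨ i = 1 ∨ i = 2 := by omega
    · exact ⟨v0, by simp, hc0 l hl⟩
    · exact ⟨v1, by simp, hc1 l hl⟩
    · exact ⟨v2, by simp, hc2 l hl⟩
  -- the fourth probe
  obtain ⟨f, g, hG0, hv⟩ : ∃ f g, GoodTri p {u1, u2, u3} f g ∧
      ∀ l, σ (K σ 3) = some l → ∀ v, VertexOf f g v → v ∉ l.carrier := by
    cases hσ : σ (K σ 3) with
    | none =>
      obtain ⟨f, g, hG, -⟩ := lemmaF (p := p) hu1 hu2 hu3 h12 h13 h23
        ⟨p, u1, fun h => by rw [h] at hu1; simp at hu1⟩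
      exact ⟨f, g, hG, fun l hl => absurd hl (by simp)⟩
    | some l =>
      obtain ⟨f, g, hG, h⟩ := lemmaF (p := p) hu1 hu2 hu3 h12 h13 h23 l
      refine ⟨f, g, hG, fun l' hl' => ?_⟩
      have : l = l' := by simpa using hl'
      rw [← this]; exact h
  have hG := hG0.mono hcov
  have hoff : ∀ j < 4, ∀ l, σ (answers σ (Tri f g) j) = some l →
      ∀ v, VertexOf f g v → v ∉ l.carrier := by
    intro j hj
    rcases Nat.lt_or_ge j 3 with h | h
    · exact off_of_good hG hcov3 j h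
    · obtain rfl : j = 3 := by omega
      intro l hl
      rw [answers_eq_K hG hcov3 3 le_rfl] at hl
      exact hv l hl
  have := lower_of_tri (q := 4) hn hval hG.1 hG.2.1 hG.2.2.1 hG.2.2.2.1 hoff
  rwa [show 4 + 2 + (3 * (n - 3) - 2) = 3 * n - 5 by omega] at this

/-- The lower bound. -/
theorem lower_bound {n m : ℕ} (hn : 4 ≤ n) {p : Plane} {σ : Strategy}
    (h : Determines n m p σ) : 3 * n ≤ m + 4 := by
  by_contra hcon
  push Not at hcon
  obtain ⟨P1, P2, hP1, hP2, hne, hans⟩ := two_polys hn h.valid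
  have hstop : ∀ P, Candidate n p P → ∀ j, answers σ P (m + j) = answers σ P m := by
    intro P hP j
    induction j with
    | zero => rfl
    | succ j ih =>
      rw [← add_assoc, answers_succ, ih]
      unfold step
      rw [(h P hP).2.1]
  have e1 := hstop P1 hP1 (3 * n - 5 - m)
  have e2 := hstop P2 hP2 (3 * n - 5 - m)
  rw [show m + (3 * n - 5 - m) = 3 * n - 5 by omega] at e1 e2
  exact hne ((h P2 hP2).2.2 P1 hP1 (by rw [← e1, ← e2, hans]))

end Pool.MPf9c708
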