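import Pool.Agent.Lib.MP_f9c708_lc.Geo2

namespace Pool.MPf9c708

open Set

theorem answers_succ (σ : Strategy) (P : Set Plane) (j : ℕ) :
    answers σ P (j + 1) = step σ P (answers σ P j) := by
  unfold answers
  rw [Function.iterate_succ_apply']

/-- A corner of `T` at `w`, all small modifications near which satisfy `F`. -/
def Good (K : ℕ) (p : Plane) (T : Set Plane) (w : Plane) (F : Set Plane → Prop) : Prop :=
  ∃ a b δ, Corner K p T a b δ ∧ a w = 0 ∧ b w = 0 ∧ ∀ P'', Fam T a b δ P'' → F P''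

theorem Good.avoid {K : ℕ} {p : Plane} {T : Set Plane} {w : Plane} {F : Set Plane → Prop}
    (h : Good K p T w F) (l : Line) (hl : w ∉ l.carrier) :
    Good K p T w (fun P'' => F P'' ∧ l.carrier ∩ P'' = l.carrier ∩ T) := by
  obtain ⟨a, b, δ, hC, ha, hb, hF⟩ := h
  obtain ⟨e, he, hle⟩ := line_avoid hC.frame l ha hb hl
  refine ⟨a, b, min δ e, hC.mono (lt_min hC.pos he) (min_le_left _ _), ha, hb, ?_⟩
  intro P'' hP''
  refine ⟨hF P'' (hP''.mono (min_le_left _ _)), ?_⟩
  refine inter_eq_of_fam hC.nonneg ?_ hP''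
  rintro x hx h1 h2 ⟨h3, h4⟩
  exact hle x hx h1 h2 ⟨lt_of_lt_of_le h3 (min_le_right _ _), lt_of_lt_of_le h4 (min_le_right _ _)⟩

theorem Good.imp {K : ℕ} {p : Plane} {T : Set Plane} {w : Plane} {F G : Set Plane → Prop}
    (h : Good K p T w F) (hFG : ∀ P'', F P'' → G P'') : Good K p T w G := by
  obtain ⟨a, b, δ, hC, ha, hb, hF⟩ := h
  exact ⟨a, b, δ, hC, ha, hb, fun P'' h => hFG _ (hF P'' h)⟩

/-- There is an `n`-gon in the family of a corner. -/
theorem Good.exists_poly {K : ℕ} {p : Plane} {T : Set Plane} {w : Plane} {F : Set Plane → Prop}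
    (h : Good K p T w F) (H : ℕ) :
    ∃ P'', IsConvexPolygon (K + H) P'' ∧ p ∈ interior P'' ∧ P'' ⊆ T ∧ F P'' := by
  obtain ⟨a, b, δ, hC, ha, hb, hF⟩ := h
  obtain ⟨P'', h1, h2⟩ := exists_fam H K T a b δ hC
  exact ⟨P'', h1, hC.inn_fam h2, h2.1, hF P'' h2⟩

/-- Each probe meets the interior of the polygon probed. -/
def Valid (n : ℕ) (p : Plane) (σ : Strategy) : Prop :=
  ∀ P, Candidate n p P → ∀ j l, σ (answers σ P j) = some l → (l.carrier ∩ interior P).Nonempty

theorem Determines.valid {n m : ℕ} {p : Plane} {σ : Strategy} (h : Determines n m p σ) :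
    Valid n p σ := fun P hP j l hl => (h P hP).1 j l hl P hP rfl

/-- next history against `T`. -/
noncomputable def nextH (σ : Strategy) (T : Set Plane) (h : List ℝ) : List ℝ := step σ T h

theorem step_congr {σ : Strategy} {P T : Set Plane} {h : List ℝ}
    (hl : ∀ l, σ h = some l → l.carrier ∩ P = l.carrier ∩ T) : step σ P h = step σ T h := by
  unfold step
  cases hσ : σ h with
  | none => rfl
  | some l =>
    simp only [chordLength]
    rw [hl l hσ]

/-- One probe that avoids the corner `w`. -/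
theorem Good.probe {K n j : ℕ} {p : Plane} {T : Set Plane} {w : Plane} {σ : Strategy}
    {h : List ℝ}
    (hG : Good K p T w (fun P'' => IsConvexPolygon n P'' → answers σ P'' j = h))
    (hw : ∀ l, σ h = some l → w ∉ l.carrier) :
    Good K p T w (fun P'' => IsConvexPolygon n P'' → answers σ P'' (j + 1) = step σ T h) := by
  cases hσ : σ h with
  | none =>
    refine hG.imp ?_
    intro P'' hP'' hn
    rw [answers_succ, hP'' hn]
    apply step_congr
    intro l hl
    rw [hσ] at hl
    exact absurd hl (by simp)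
  | some l =>
    refine (hG.avoid l (hw l hσ)).imp ?_
    rintro P'' ⟨hP'', hcap⟩ hn
    rw [answers_succ, hP'' hn]
    apply step_congr
    intro l' hl'
    rw [hσ] at hl'
    have : l = l' := by simpa using hl'
    rw [← this]; exact hcap

/-- Three probes against a fan of corners. -/
theorem fan_three {n K H j : ℕ} {p : Plane} {σ : Strategy} {h0 : List ℝ} (hKn : K + H = n)
    (hval : Valid n p σ) (T : ℕ → Set Plane) (w w' : ℕ → Plane)
    (hG : ∀ i, Good K p (T i) (w i) (fun P'' => IsConvexPolygon n P'' → answers σ P'' j = h0))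
    (hG' : ∀ i, Good K p (T i) (w' i) (fun P'' => IsConvexPolygon n P'' → answers σ P'' j = h0))
    (hl1 : ∀ l, σ h0 = some l → ∀ i, w i ∉ l.carrier ∧ w' i ∉ l.carrier ∧
      l.carrier ∩ T i = l.carrier ∩ T 0)
    (hsep : ∀ i (l : Line), (l.carrier ∩ interior (T i)).Nonempty →
      ¬ (w i ∈ l.carrier ∧ w' i ∈ l.carrier))
    (hfin : ∀ l : Line, (∀ i, (l.carrier ∩ interior (T i)).Nonempty) →
      ∃ i, w i ∉ l.carrier ∧ w' i ∉ l.carrier) :
    ∃ i v h3, Good K p (T i) v
      (fun P'' => IsConvexPolygon n P'' → answers σ P'' (j + 3) = h3) := by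
  subst hKn
  set h1 := step σ (T 0) h0 with hh1
  have hstep1 : ∀ i, step σ (T i) h0 = h1 := fun i => step_congr (fun l hl => (hl1 l hl i).2.2)
  have hG1 : ∀ i, Good K p (T i) (w i)
      (fun P'' => IsConvexPolygon (K + H) P'' → answers σ P'' (j + 1) = h1) := by
    intro i
    have := (hG i).probe (fun l hl => (hl1 l hl i).1)
    rwa [hstep1] at this
  have hG1' : ∀ i, Good K p (T i) (w' i)
      (fun P'' => IsConvexPolygon (K + H) P'' → answers σ P'' (j + 1) = h1) := by
    intro i
    have := (hG' i).probe (fun l hl => (hl1 l hl i).2.1)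
    rwa [hstep1] at this
  -- second probe
  obtain ⟨i, hi⟩ : ∃ i, ∀ l, σ h1 = some l → w i ∉ l.carrier ∧ w' i ∉ l.carrier := by
    cases hσ : σ h1 with
    | none => exact ⟨0, fun l hl => absurd hl (by simp)⟩
    | some l =>
      obtain ⟨i, hi⟩ := hfin l (by
        intro i
        obtain ⟨P'', hn, hp, hsub, hF⟩ := (hG1 i).exists_poly H
        have := hval P'' ⟨hn, hp⟩ (j + 1) l (by rw [hF hn]; exact hσ)
        exact this.mono (Set.inter_subset_inter_right _ (interior_mono hsub)))
      refine ⟨i, fun l' hl' => ?_⟩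
      have : l = l' := by simpa using hl'
      rw [← this]; exact hi
  set h2 := step σ (T i) h1 with hh2
  have hG2 := (hG1 i).probe (fun l hl => (hi l hl).1)
  have hG2' := (hG1' i).probe (fun l hl => (hi l hl).2)
  rw [← hh2] at hG2 hG2'
  -- third probe
  obtain ⟨v, hv, hGv⟩ : ∃ v, (∀ l, σ h2 = some l → v ∉ l.carrier) ∧ Good K p (T i) v
      (fun P'' => IsConvexPolygon (K + H) P'' → answers σ P'' (j + 1 + 1) = h2) := by
    cases hσ : σ h2 with
    | none => exact ⟨w i, fun l hl => absurd hl (by simp), hG2⟩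
    | some l =>
      obtain ⟨P'', hn, hp, hsub, hF⟩ := hG2.exists_poly H
      have h4 := hval P'' ⟨hn, hp⟩ (j + 1 + 1) l (by rw [hF hn]; exact hσ)
      have h5 := hsep i l (h4.mono (Set.inter_subset_inter_right _ (interior_mono hsub)))
      by_cases hw : w i ∈ l.carrier
      · have hw' : w' i ∉ l.carrier := fun h => h5 ⟨hw, h⟩
        refine ⟨w' i, fun l' hl' => ?_, hG2'⟩
        have : l = l' := by simpa using hl'
        rw [← this]; exact hw'
      · refine ⟨w i, fun l' hl' => ?_, hG2⟩
        have : l = l' := by simpa using hl'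
        rw [← this]; exact hw
  refine ⟨i, v, step σ (T i) h2, ?_⟩
  exact hGv.probe hv

end Pool.MPf9c708
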