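import Pool.Agent.Lib.MP_f9c708_lc.Defs

namespace Pool.MPf9c708

open Set

section general

variable {E : Type*} [AddCommGroup E] [Module ℝ E]

theorem extreme_of_indep {S : Set E} (hS : ConvexIndependent ℝ ((↑) : S → E)) {v : E}
    (hv : v ∈ S) : v ∈ (convexHull ℝ S).extremePoints ℝ := by
  have hnot : v ∉ convexHull ℝ (S \ {v}) :=
    convexIndependent_set_iff_notMem_convexHull_sdiff.mp hS v hv
  have hSv : S = insert v (S \ {v}) := by
    rw [Set.insert_sdiff_singleton, Set.insert_eq_of_mem hv]
  rcases (S \ {v}).eq_empty_or_nonempty with hT | hT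
  · rw [hSv, hT]
    simp
  · rw [mem_extremePoints_iff_left]
    refine ⟨subset_convexHull ℝ S hv, ?_⟩
    intro x1 hx1 x2 hx2 hx
    rw [hSv, convexHull_insert hT, mem_convexJoin] at hx1 hx2
    obtain ⟨v1, hv1, y1, hy1, hs1⟩ := hx1
    obtain ⟨v2, hv2, y2, hy2, hs2⟩ := hx2
    rw [Set.mem_singleton_iff] at hv1 hv2
    subst hv1
    rw [hv2] at hs2
    obtain ⟨a1, c1, ha1, hc1, hac1, rfl⟩ := hs1
    obtain ⟨a2, c2, ha2, hc2, hac2, rfl⟩ := hs2
    obtain ⟨l, m, hl, hm, hlm, hcomb⟩ := hx
    -- (l c1 + m c2) v = l c1 y1 + m c2 y2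
    have key : (l * c1 + m * c2) • v1 = (l * c1) • y1 + (m * c2) • y2 := by
      have e1 : v1 = (l * a1 + m * a2) • v1 + ((l * c1) • y1 + (m * c2) • y2) := by
        nth_rewrite 1 [← hcomb]
        module
      have e2 : (l * a1 + m * a2) = 1 - (l * c1 + m * c2) := by
        have : a1 = 1 - c1 := by linarith
        have : a2 = 1 - c2 := by linarith
        subst a1 a2
        linear_combination hlm
      rw [e2, sub_smul, one_smul] at e1
      have e3 : (l * c1 + m * c2) • v1 = v1 - (v1 - (l * c1 + m * c2) • v1) := by module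
      rw [e3]
      nth_rewrite 1 [e1]
      module
    by_cases hpos : 0 < l * c1 + m * c2
    · exfalso
      apply hnot
      have : v1 = ((l * c1) / (l * c1 + m * c2)) • y1 + ((m * c2) / (l * c1 + m * c2)) • y2 := by
        have h3 : v1 = (l * c1 + m * c2)⁻¹ • ((l * c1) • y1 + (m * c2) • y2) := by
          rw [← key, smul_smul, inv_mul_cancel₀ hpos.ne', one_smul]
        nth_rewrite 1 [h3]
        rw [smul_add, smul_smul, smul_smul, div_eq_inv_mul, div_eq_inv_mul]
      have h4 : ((l * c1) / (l * c1 + m * c2)) • y1 + ((m * c2) / (l * c1 + m * c2)) • y2 ∈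
          convexHull ℝ (S \ {v1}) := by
        refine (convex_convexHull ℝ (S \ {v1})) hy1 hy2 (by positivity) (by positivity) ?_
        rw [← add_div, div_self hpos.ne']
      rwa [← this] at h4
    · have h1 : l * c1 = 0 := by
        have := mul_nonneg hl.le hc1
        have := mul_nonneg hm.le hc2
        linarith
      have h2 : c1 = 0 := by
        rcases mul_eq_zero.mp h1 with h | h
        · exact absurd h hl.ne'
        · exact h
      subst h2
      have : a1 = 1 := by linarith
      subst this
      simp

/-- Affine coordinates. -/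
structure Frame (a b : E →ᵃ[ℝ] ℝ) : Prop where
  inj : ∀ x y, a x = a y → b x = b y → x = y
  surj : ∀ s t : ℝ, ∃ x, a x = s ∧ b x = t

theorem Frame.swap {a b : E →ᵃ[ℝ] ℝ} (h : Frame a b) : Frame b a :=
  ⟨fun x y h1 h2 => h.inj x y h2 h1, fun s t => by
    obtain ⟨x, h1, h2⟩ := h.surj t s
    exact ⟨x, h2, h1⟩⟩

/-- The affine functional `a / α + b / β - 1`. -/
noncomputable def cutFun (a b : E →ᵃ[ℝ] ℝ) (α β : ℝ) : E →ᵃ[ℝ] ℝ :=
  (α⁻¹ • a + β⁻¹ • b) + AffineMap.const ℝ E (-1)

theorem cutFun_apply (a b : E →ᵃ[ℝ] ℝ) (α β : ℝ) (x : E) :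
    cutFun a b α β x = a x / α + b x / β - 1 := by
  simp [cutFun, div_eq_inv_mul]
  ring

theorem cutFun_swap (a b : E →ᵃ[ℝ] ℝ) (α β : ℝ) : cutFun b a β α = cutFun a b α β := by
  ext x
  rw [cutFun_apply, cutFun_apply]
  ring

theorem Frame.cut {a b : E →ᵃ[ℝ] ℝ} (h : Frame a b) {α β : ℝ} (hα : α ≠ 0) :
    Frame (cutFun a b α β) b := by
  constructor
  · intro x y h1 h2
    rw [cutFun_apply, cutFun_apply, h2] at h1
    apply h.inj _ _ _ h2
    have h3 : a x / α = a y / α := by linarith
    field_simp at h3
    exact h3
  · intro s t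
    obtain ⟨x, h1, h2⟩ := h.surj (α * (s + 1 - t / β)) t
    refine ⟨x, ?_, h2⟩
    rw [cutFun_apply, h1, h2]
    field_simp
    ring

end general

/-- The part of `P` on the far side of the cut. -/
def cutSet (P : Set Plane) (a b : Plane →ᵃ[ℝ] ℝ) (α β : ℝ) : Set Plane :=
  {x | x ∈ P ∧ 0 ≤ cutFun a b α β x}

theorem cutSet_subset (P : Set Plane) (a b : Plane →ᵃ[ℝ] ℝ) (α β : ℝ) :
    cutSet P a b α β ⊆ P := fun _ h => h.1

theorem cutSet_swap (P : Set Plane) (a b : Plane →ᵃ[ℝ] ℝ) (α β : ℝ) :
    cutSet P b a β α = cutSet P a b α β := by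
  unfold cutSet
  rw [cutFun_swap]

/-- `P` looks like a quadrant near the corner `a = b = 0`, in the affine coordinates `a, b`. -/
structure Corner (k : ℕ) (p : Plane) (P : Set Plane) (a b : Plane →ᵃ[ℝ] ℝ) (δ : ℝ) : Prop where
  poly : IsConvexPolygon k P
  frame : Frame a b
  pos : 0 < δ
  nonneg : ∀ x ∈ P, 0 ≤ a x ∧ 0 ≤ b x
  full : ∀ x, 0 ≤ a x → 0 ≤ b x → a x ≤ δ → b x ≤ δ → x ∈ P
  inn : p ∈ interior P
  far : δ < a p ∨ δ < b p

theorem Corner.swap {k : ℕ} {p : Plane} {P : Set Plane} {a b : Plane →ᵃ[ℝ] ℝ} {δ : ℝ}
    (h : Corner k p P a b δ) : Corner k p P b a δ :=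
  ⟨h.poly, h.frame.swap, h.pos, fun x hx => (h.nonneg x hx).symm,
    fun x h1 h2 h3 h4 => h.full x h2 h1 h4 h3, h.inn, h.far.symm⟩

theorem Corner.mono {k : ℕ} {p : Plane} {P : Set Plane} {a b : Plane →ᵃ[ℝ] ℝ} {δ δ' : ℝ}
    (h : Corner k p P a b δ) (h0 : 0 < δ') (h1 : δ' ≤ δ) : Corner k p P a b δ' :=
  ⟨h.poly, h.frame, h0, h.nonneg,
    fun x h2 h3 h4 h5 => h.full x h2 h3 (h4.trans h1) (h5.trans h1), h.inn,
    h.far.imp (fun h => lt_of_le_of_lt h1 h) (fun h => lt_of_le_of_lt h1 h)⟩

theorem convex_cutSet {P : Set Plane} (hP : Convex ℝ P) (a b : Plane →ᵃ[ℝ] ℝ) (α β : ℝ) :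
    Convex ℝ (cutSet P a b α β) := by
  intro x hx y hy s t hs ht hst
  refine ⟨hP hx.1 hy.1 hs ht hst, ?_⟩
  rw [Convex.combo_affine_apply hst]
  have h1 := hx.2
  have h2 := hy.2
  simp only [smul_eq_mul]
  positivity

theorem cut_poly {k : ℕ} {p : Plane} {P : Set Plane} {a b : Plane →ᵃ[ℝ] ℝ} {δ : ℝ}
    (h : Corner k p P a b δ) {α β : ℝ} (hα : 0 < α) (hαδ : α < δ) (hβ : 0 < β) (hβδ : β < δ) :
    IsConvexPolygon (k + 1) (cutSet P a b α β) := by
  obtain ⟨S, hfin, hcard, hind, hPS⟩ := h.poly
  have hPconv : Convex ℝ P := by rw [hPS]; exact convex_convexHull ℝ S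
  have hSP : S ⊆ P := by rw [hPS]; exact subset_convexHull ℝ S
  set f := cutFun a b α β with hf
  have hfv : ∀ x, f x = a x / α + b x / β - 1 := cutFun_apply a b α β
  obtain ⟨V, hVa, hVb⟩ := h.frame.surj 0 0
  obtain ⟨w1, hw1a, hw1b⟩ := h.frame.surj α 0
  obtain ⟨w2, hw2a, hw2b⟩ := h.frame.surj 0 β
  have hVP : V ∈ P := h.full V (by rw [hVa]) (by rw [hVb]) (by rw [hVa]; exact h.pos.le)
    (by rw [hVb]; exact h.pos.le)
  have hw1P : w1 ∈ P := h.full w1 (by rw [hw1a]; exact hα.le) (by rw [hw1b])
    (by rw [hw1a]; exact hαδ.le) (by rw [hw1b]; exact h.pos.le)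
  have hw2P : w2 ∈ P := h.full w2 (by rw [hw2a]) (by rw [hw2b]; exact hβ.le)
    (by rw [hw2a]; exact h.pos.le) (by rw [hw2b]; exact hβδ.le)
  have hfV : f V = -1 := by rw [hfv, hVa, hVb]; simp
  have hfw1 : f w1 = 0 := by rw [hfv, hw1a, hw1b]; field_simp; ring
  have hfw2 : f w2 = 0 := by rw [hfv, hw2a, hw2b]; field_simp; ring
  -- V is a vertex
  have hVext : V ∈ P.extremePoints ℝ := by
    rw [mem_extremePoints_iff_left]
    refine ⟨hVP, ?_⟩
    rintro x1 hx1 x2 hx2 ⟨s, t, hs, ht, hst, hc⟩
    have h1 := h.nonneg x1 hx1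
    have h2 := h.nonneg x2 hx2
    have e1 : s * a x1 + t * a x2 = 0 := by
      have := Convex.combo_affine_apply (f := a) (x := x1) (y := x2) hst
      rw [hc, hVa] at this
      simpa using this.symm
    have e2 : s * b x1 + t * b x2 = 0 := by
      have := Convex.combo_affine_apply (f := b) (x := x1) (y := x2) hst
      rw [hc, hVb] at this
      simpa using this.symm
    apply h.frame.inj
    · rw [hVa]
      have h3 : 0 ≤ t * a x2 := mul_nonneg ht.le h2.1
      have h4 : 0 ≤ s * a x1 := mul_nonneg hs.le h1.1
      have h5 : s * a x1 = 0 := by linarith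
      exact (mul_eq_zero.mp h5).resolve_left hs.ne'
    · rw [hVb]
      have h3 : 0 ≤ t * b x2 := mul_nonneg ht.le h2.2
      have h4 : 0 ≤ s * b x1 := mul_nonneg hs.le h1.2
      have h5 : s * b x1 = 0 := by linarith
      exact (mul_eq_zero.mp h5).resolve_left hs.ne'
  have hVS : V ∈ S := by
    rw [hPS] at hVext
    exact extremePoints_convexHull_subset hVext
  have hext : ∀ v ∈ S, v ∈ P.extremePoints ℝ := by
    intro v hv
    rw [hPS]
    exact extreme_of_indep hind hv
  -- the other vertices are far
  have hfar : ∀ v ∈ S, v ≠ V → 0 < f v := by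
    intro v hv hvV
    have hv0 := h.nonneg v (hSP hv)
    by_contra hneg
    push Not at hneg
    rw [hfv] at hneg
    have hva : a v / α ≤ 1 := by
      have : 0 ≤ b v / β := div_nonneg hv0.2 hβ.le
      linarith
    have hvb : b v / β ≤ 1 := by
      have : 0 ≤ a v / α := div_nonneg hv0.1 hα.le
      linarith
    rw [div_le_one hα] at hva
    rw [div_le_one hβ] at hvb
    have hvx := (mem_extremePoints_iff_left.mp (hext v hv)).2
    -- a v = 0
    have hav : a v = 0 := by
      by_contra hne
      have hpos : 0 < a v := lt_of_le_of_ne hv0.1 (Ne.symm hne)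
      set e := min (a v) (δ - a v) with he
      have he0 : 0 < e := lt_min hpos (by linarith)
      have he1 : e ≤ a v := min_le_left _ _
      have he2 : e ≤ δ - a v := min_le_right _ _
      obtain ⟨x1, hx1a, hx1b⟩ := h.frame.surj (a v - e) (b v)
      obtain ⟨x2, hx2a, hx2b⟩ := h.frame.surj (a v + e) (b v)
      have hx1 : x1 ∈ P := h.full x1 (by linarith) (by linarith) (by linarith) (by linarith)
      have hx2 : x2 ∈ P := h.full x2 (by linarith) (by linarith) (by linarith) (by linarith)
      have hmid : v ∈ openSegment ℝ x1 x2 := by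
        refine ⟨1 / 2, 1 / 2, by norm_num, by norm_num, by norm_num, ?_⟩
        apply h.frame.inj
        · rw [Convex.combo_affine_apply (by norm_num), hx1a, hx2a]
          simp only [smul_eq_mul]; ring
        · rw [Convex.combo_affine_apply (by norm_num), hx1b, hx2b]
          simp only [smul_eq_mul]; ring
      have := hvx x1 hx1 x2 hx2 hmid
      rw [this] at hx1a
      linarith
    have hbv : b v = 0 := by
      by_contra hne
      have hpos : 0 < b v := lt_of_le_of_ne hv0.2 (Ne.symm hne)
      set e := min (b v) (δ - b v) with he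
      have he0 : 0 < e := lt_min hpos (by linarith)
      have he1 : e ≤ b v := min_le_left _ _
      have he2 : e ≤ δ - b v := min_le_right _ _
      obtain ⟨x1, hx1a, hx1b⟩ := h.frame.surj (a v) (b v - e)
      obtain ⟨x2, hx2a, hx2b⟩ := h.frame.surj (a v) (b v + e)
      have hx1 : x1 ∈ P := h.full x1 (by linarith) (by linarith) (by linarith) (by linarith)
      have hx2 : x2 ∈ P := h.full x2 (by linarith) (by linarith) (by linarith) (by linarith)
      have hmid : v ∈ openSegment ℝ x1 x2 := by
        refine ⟨1 / 2, 1 / 2, by norm_num, by norm_num, by norm_num, ?_⟩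
        apply h.frame.inj
        · rw [Convex.combo_affine_apply (by norm_num), hx1a, hx2a]
          simp only [smul_eq_mul]; ring
        · rw [Convex.combo_affine_apply (by norm_num), hx1b, hx2b]
          simp only [smul_eq_mul]; ring
      have := hvx x1 hx1 x2 hx2 hmid
      rw [this] at hx1b
      linarith
    apply hvV
    apply h.frame.inj
    · rw [hav, hVa]
    · rw [hbv, hVb]
  have hw1S : w1 ∉ S \ {V} := by
    rintro ⟨h1, h2⟩
    have := hfar w1 h1 (by simpa using h2)
    linarith
  have hw2S : w2 ∉ S \ {V} := by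
    rintro ⟨h1, h2⟩
    have := hfar w2 h1 (by simpa using h2)
    linarith
  have hw12 : w1 ≠ w2 := by
    intro h12
    rw [h12, hw2a] at hw1a
    exact hα.ne hw1a
  set S' : Set Plane := insert w1 (insert w2 (S \ {V})) with hS'
  have hS'fin : S'.Finite := ((hfin.sdiff).insert w2).insert w1
  have hTsub : S \ {V} ⊆ cutSet P a b α β := by
    rintro v ⟨hv, hvV⟩
    exact ⟨hSP hv, (hfar v hv (by simpa using hvV)).le⟩
  have hS'sub : S' ⊆ cutSet P a b α β := by
    rintro v (rfl | rfl | hv)
    · exact ⟨hw1P, hfw1.ge⟩
    · exact ⟨hw2P, hfw2.ge⟩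
    · exact hTsub hv
  refine ⟨S', hS'fin, ?_, ?_, ?_⟩
  · have hfinT : (S \ {V}).Finite := hfin.sdiff
    rw [hS', Set.ncard_insert_of_notMem _ (hfinT.insert w2),
      Set.ncard_insert_of_notMem hw2S hfinT, Set.ncard_sdiff_singleton_of_mem hVS, hcard]
    · have : 0 < k := by
        rw [← hcard]
        exact (Set.ncard_pos hfin).mpr ⟨V, hVS⟩
      omega
    · rintro (h1 | h1)
      · exact hw12 h1
      · exact hw1S h1
  · rw [convexIndependent_set_iff_notMem_convexHull_sdiff]
    have hconvC := convex_cutSet hPconv a b α β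
    rintro v (rfl | rfl | hv)
    · -- w1 : functional f + b
      intro hmem
      have hsub : convexHull ℝ (S' \ {v}) ⊆ {x | 0 < (f + b) x} := by
        apply convexHull_min
        · rintro x ⟨hx, hxv⟩
          have hx1 := hS'sub hx
          have hx2 := h.nonneg x hx1.1
          have hx3 : 0 ≤ f x := hx1.2
          show 0 < f x + b x
          by_contra hneg
          push Not at hneg
          have h1 : f x = 0 := by linarith [hx2.2]
          have h2 : b x = 0 := by linarith [hx2.2]
          apply hxv
          rw [Set.mem_singleton_iff]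
          apply h.frame.inj
          · rw [hw1a]
            rw [hfv, h2, zero_div, add_zero] at h1
            exact (div_eq_one_iff_eq hα.ne').mp (by linarith)
          · rw [hw1b, h2]
        · intro x hx y hy s t hs ht hst
          show 0 < (f + b) (s • x + t • y)
          rw [Convex.combo_affine_apply hst]
          simp only [smul_eq_mul]
          rcases hs.eq_or_lt with h0 | h0
          · have ht1 : t = 1 := by linarith
            rw [← h0, ht1]; simpa using hy
          · have := mul_pos h0 hx
            have := mul_nonneg ht (le_of_lt hy)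
            linarith
      have := hsub hmem
      have h2 : (0 : ℝ) < f v + b v := this
      rw [hfw1, hw1b] at h2
      linarith
    · -- w2 : functional f + a
      intro hmem
      have hsub : convexHull ℝ (S' \ {v}) ⊆ {x | 0 < (f + a) x} := by
        apply convexHull_min
        · rintro x ⟨hx, hxv⟩
          have hx1 := hS'sub hx
          have hx2 := h.nonneg x hx1.1
          have hx3 : 0 ≤ f x := hx1.2
          show 0 < f x + a x
          by_contra hneg
          push Not at hneg
          have h1 : f x = 0 := by linarith [hx2.1]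
          have h2 : a x = 0 := by linarith [hx2.1]
          apply hxv
          rw [Set.mem_singleton_iff]
          apply h.frame.inj
          · rw [hw2a, h2]
          · rw [hw2b]
            rw [hfv, h2, zero_div, zero_add] at h1
            exact (div_eq_one_iff_eq hβ.ne').mp (by linarith)
        · intro x hx y hy s t hs ht hst
          show 0 < (f + a) (s • x + t • y)
          rw [Convex.combo_affine_apply hst]
          simp only [smul_eq_mul]
          rcases hs.eq_or_lt with h0 | h0
          · have ht1 : t = 1 := by linarith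
            rw [← h0, ht1]; simpa using hy
          · have := mul_pos h0 hx
            have := mul_nonneg ht (le_of_lt hy)
            linarith
      have := hsub hmem
      have h2 : (0 : ℝ) < f v + a v := this
      rw [hfw2, hw2a] at h2
      linarith
    · intro hmem
      have hconv : Convex ℝ (P \ {v}) := by
        have := hext v hv.1
        rw [hPconv.mem_extremePoints_iff_convex_sdiff] at this
        exact this.2
      have hsub : convexHull ℝ (S' \ {v}) ⊆ P \ {v} := by
        apply convexHull_min _ hconv
        rintro x ⟨hx, hxv⟩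
        exact ⟨(hS'sub hx).1, hxv⟩
      exact (hsub hmem).2 rfl
  · apply Set.Subset.antisymm
    · -- cut ⊆ hull
      rintro x ⟨hxP, hxf⟩
      have hw1H : w1 ∈ convexHull ℝ S' := subset_convexHull ℝ S' (by simp [hS'])
      have hw2H : w2 ∈ convexHull ℝ S' := subset_convexHull ℝ S' (by simp [hS'])
      have hTH : convexHull ℝ (S \ {V}) ⊆ convexHull ℝ S' := by
        apply convexHull_mono
        intro y hy
        exact Or.inr (Or.inr hy)
      -- points of P on the cut
      have hedge : ∀ z ∈ P, f z = 0 → z ∈ convexHull ℝ S' := by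
        intro z hz hfz
        have hz0 := h.nonneg z hz
        rw [hfv] at hfz
        have hzeq : z = (a z / α) • w1 + (b z / β) • w2 := by
          have hsum : a z / α + b z / β = 1 := by linarith
          apply h.frame.inj
          · rw [Convex.combo_affine_apply hsum, hw1a, hw2a]
            simp only [smul_eq_mul]; field_simp; ring
          · rw [Convex.combo_affine_apply hsum, hw1b, hw2b]
            simp only [smul_eq_mul]; field_simp; ring
        rw [hzeq]
        exact (convex_convexHull ℝ S') hw1H hw2H (div_nonneg hz0.1 hα.le)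
          (div_nonneg hz0.2 hβ.le) (by linarith)
      have hSV : S = insert V (S \ {V}) := by
        rw [Set.insert_sdiff_singleton, Set.insert_eq_of_mem hVS]
      rcases (S \ {V}).eq_empty_or_nonempty with hT | hT
      · exfalso
        rw [hPS, hSV, hT] at hxP
        simp at hxP
        rw [hxP] at hxf
        have : (0 : ℝ) ≤ f V := hxf
        linarith
      · have hxP' := hxP
        rw [hPS, hSV, convexHull_insert hT, mem_convexJoin] at hxP'
        obtain ⟨V', hV', y, hy, hxy⟩ := hxP'
        rw [Set.mem_singleton_iff] at hV'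
        rw [hV'] at hxy
        obtain ⟨s, t, hs, ht, hst, hxeq⟩ := hxy
        have hyP : y ∈ P := by
          rw [hPS]
          exact convexHull_mono Set.sdiff_subset hy
        have hfy : 0 < f y := by
          have hsub : convexHull ℝ (S \ {V}) ⊆ {x | 0 < f x} := by
            apply convexHull_min
            · rintro v ⟨hv, hvV⟩
              exact hfar v hv (by simpa using hvV)
            · intro x hx y hy s t hs ht hst
              show 0 < f (s • x + t • y)
              rw [Convex.combo_affine_apply hst]
              simp only [smul_eq_mul]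
              rcases hs.eq_or_lt with h0 | h0
              · have ht1 : t = 1 := by linarith
                rw [← h0, ht1]; simpa using hy
              · have := mul_pos h0 hx
                have := mul_nonneg ht (le_of_lt hy)
                linarith
          exact hsub hy
        have hfx : f x = -s + t * f y := by
          rw [← hxeq, Convex.combo_affine_apply hst, hfV]
          simp only [smul_eq_mul]; ring
        have hfx0 : 0 ≤ f x := hxf
        -- z on the segment V y with f z = 0
        have hden : 0 < 1 + f y := by linarith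
        set u := 1 / (1 + f y) with hu
        have hu0 : 0 < u := by positivity
        have hu1 : u < 1 := by rw [hu, div_lt_one hden]; linarith
        set z := (1 - u) • V + u • y with hz
        have hzP : z ∈ P := hPconv hVP hyP (by linarith) hu0.le (by ring)
        have hfz : f z = 0 := by
          rw [hz, Convex.combo_affine_apply (by ring), hfV]
          simp only [smul_eq_mul]
          rw [hu]; field_simp; ring
        have hzH := hedge z hzP hfz
        have hut : u ≤ t := by
          rw [hu, div_le_iff₀ hden]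
          have : s = 1 - t := by linarith
          rw [this] at hfx
          nlinarith
        -- x = ((1-t)/(1-u)) z + ((t-u)/(1-u)) y
        have h1u : 0 < 1 - u := by linarith
        have hx' : x = ((1 - t) / (1 - u)) • z + ((t - u) / (1 - u)) • y := by
          have hs' : s = 1 - t := by linarith
          rw [← hxeq, hz, hs', smul_add, smul_smul, smul_smul, add_assoc, ← add_smul]
          congr 2
          · field_simp
          · field_simp; ring
        rw [hx']
        refine (convex_convexHull ℝ S') hzH (hTH hy) (div_nonneg (by linarith) h1u.le)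
          (div_nonneg (by linarith) h1u.le) ?_
        field_simp
        ring
    · exact convexHull_min hS'sub (convex_cutSet hPconv a b α β)

end Pool.MPf9c708
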