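import Pool.Agent.Lib.MP_f9c708_lc.Geo

namespace Pool.MPf9c708

open Set

theorem continuous_aff (f : Plane →ᵃ[ℝ] ℝ) : Continuous f :=
  AffineMap.continuous_of_finiteDimensional f

/-- Interior points of a set in the half plane `0 ≤ f` satisfy `0 < f`. -/
theorem pos_of_mem_interior {P : Set Plane} {f : Plane →ᵃ[ℝ] ℝ} (hf : ∃ x y, f x ≠ f y)
    (hP : ∀ x ∈ P, 0 ≤ f x) {x : Plane} (hx : x ∈ interior P) : 0 < f x := by
  have hx0 : 0 ≤ f x := hP x (interior_subset hx)
  rcases hx0.eq_or_lt with h0 | h0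
  · exfalso
    -- a point with f y ≠ 0
    obtain ⟨y, hy⟩ : ∃ y, f y ≠ 0 := by
      obtain ⟨y, z, hyz⟩ := hf
      by_cases hy : f y = 0
      · refine ⟨z, fun hz => hyz ?_⟩
        rw [hy, hz]
      · exact ⟨y, hy⟩
    -- a point with f y < 0
    have hline : ∀ t : ℝ, f ((1 - t) • x + t • y) = t * f y := by
      intro t
      rw [Convex.combo_affine_apply (by ring), ← h0]
      simp
    have hcont : Continuous (fun t : ℝ => (1 - t) • x + t • y) := by fun_prop
    have hnhds : (fun t : ℝ => (1 - t) • x + t • y) ⁻¹' interior P ∈ nhds (0 : ℝ) := by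
      apply hcont.continuousAt.preimage_mem_nhds
      apply isOpen_interior.mem_nhds
      simpa using hx
    obtain ⟨e, he, hball⟩ := Metric.mem_nhds_iff.mp hnhds
    have h1 : (e / 2 : ℝ) ∈ Metric.ball (0 : ℝ) e := by
      rw [Metric.mem_ball, Real.dist_eq, sub_zero, abs_of_pos (by linarith)]; linarith
    have h2 : (-(e / 2) : ℝ) ∈ Metric.ball (0 : ℝ) e := by
      rw [Metric.mem_ball, Real.dist_eq, sub_zero, abs_neg, abs_of_pos (by linarith)]; linarith
    have h3 := hP _ (interior_subset (hball h1))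
    have h4 := hP _ (interior_subset (hball h2))
    rw [hline] at h3 h4
    rcases lt_or_gt_of_ne hy with h | h
    · nlinarith
    · nlinarith
  · exact h0

theorem Frame.nonconst {a b : Plane →ᵃ[ℝ] ℝ} (h : Frame a b) : ∃ x y, a x ≠ a y := by
  obtain ⟨x, hx, _⟩ := h.surj 0 0
  obtain ⟨y, hy, _⟩ := h.surj 1 0
  exact ⟨x, y, by rw [hx, hy]; norm_num⟩

/-- `P''` agrees with `P` outside the corner region. -/
def Fam (P : Set Plane) (a b : Plane →ᵃ[ℝ] ℝ) (δ : ℝ) (P'' : Set Plane) : Prop :=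
  P'' ⊆ P ∧ ∀ x ∈ P, x ∉ P'' → a x < δ ∧ b x < δ

theorem Fam.swap {P P'' : Set Plane} {a b : Plane →ᵃ[ℝ] ℝ} {δ : ℝ} (h : Fam P a b δ P'') :
    Fam P b a δ P'' := ⟨h.1, fun x h1 h2 => (h.2 x h1 h2).symm⟩

theorem Fam.mono {P P'' : Set Plane} {a b : Plane →ᵃ[ℝ] ℝ} {δ δ' : ℝ} (h : Fam P a b δ' P'')
    (hδ : δ' ≤ δ) : Fam P a b δ P'' :=
  ⟨h.1, fun x h1 h2 => ⟨lt_of_lt_of_le (h.2 x h1 h2).1 hδ, lt_of_lt_of_le (h.2 x h1 h2).2 hδ⟩⟩

theorem Fam.refl (P : Set Plane) (a b : Plane →ᵃ[ℝ] ℝ) (δ : ℝ) : Fam P a b δ P :=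
  ⟨Subset.rfl, fun _ h1 h2 => absurd h1 h2⟩

theorem Corner.cut_fun_pos {k : ℕ} {p : Plane} {P : Set Plane} {a b : Plane →ᵃ[ℝ] ℝ} {δ : ℝ}
    (h : Corner k p P a b δ) {α β : ℝ} (hα : 0 < α) (hαδ : α < δ) (hβ : 0 < β) (hβδ : β < δ) :
    0 < cutFun a b α β p := by
  have hp := h.nonneg p (interior_subset h.inn)
  rw [cutFun_apply]
  have h1 : 0 ≤ a p / α := div_nonneg hp.1 hα.le
  have h2 : 0 ≤ b p / β := div_nonneg hp.2 hβ.le
  rcases h.far with h3 | h3
  · have : 1 < a p / α := by rw [lt_div_iff₀ hα]; linarith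
    linarith
  · have : 1 < b p / β := by rw [lt_div_iff₀ hβ]; linarith
    linarith

theorem cut_corner {k : ℕ} {p : Plane} {P : Set Plane} {a b : Plane →ᵃ[ℝ] ℝ} {δ : ℝ}
    (h : Corner k p P a b δ) {α β : ℝ} (hα : 0 < α) (hαδ : α < δ) (hβ : 0 < β) (hβδ : β < δ) :
    ∃ δ', Corner (k + 1) p (cutSet P a b α β) (cutFun a b α β) b δ' ∧
      ∀ P'', Fam (cutSet P a b α β) (cutFun a b α β) b δ' P'' → Fam P a b δ P'' := by
  have hfp := h.cut_fun_pos hα hαδ hβ hβδ
  set f := cutFun a b α β with hf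
  have hfv : ∀ x, f x = a x / α + b x / β - 1 := cutFun_apply a b α β
  have hav : ∀ x, a x = α * (f x + 1 - b x / β) := by
    intro x
    rw [hfv]
    field_simp
    ring
  set δ' := min (min (f p / 2) β) (min ((δ - α) / α) δ) with hδ'
  have h1 : δ' ≤ f p / 2 := (min_le_left _ _).trans (min_le_left _ _)
  have h2 : δ' ≤ β := (min_le_left _ _).trans (min_le_right _ _)
  have h3 : δ' ≤ (δ - α) / α := (min_le_right _ _).trans (min_le_left _ _)
  have h4 : δ' ≤ δ := (min_le_right _ _).trans (min_le_right _ _)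
  have h0 : 0 < δ' := by
    refine lt_min (lt_min (by linarith) hβ) (lt_min (div_pos (by linarith) hα) h.pos)
  have h3' : α * (1 + δ') ≤ δ := by
    rw [le_div_iff₀ hα] at h3
    linarith
  refine ⟨δ', ⟨cut_poly h hα hαδ hβ hβδ, h.frame.cut hα.ne', h0, ?_, ?_, ?_, ?_⟩, ?_⟩
  · intro x hx
    exact ⟨hx.2, (h.nonneg x hx.1).2⟩
  · intro x hx1 hx2 hx3 hx4
    refine ⟨h.full x ?_ hx2 ?_ (hx4.trans h4), hx1⟩
    · rw [hav]
      have : b x / β ≤ 1 := by rw [div_le_one hβ]; linarith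
      have : 0 ≤ f x + 1 - b x / β := by linarith
      positivity
    · rw [hav]
      have h5 : 0 ≤ b x / β := div_nonneg hx2 hβ.le
      have : α * (f x + 1 - b x / β) ≤ α * (1 + δ') :=
        mul_le_mul_of_nonneg_left (by linarith) hα.le
      linarith
  · rw [mem_interior]
    refine ⟨interior P ∩ {x | 0 < f x}, ?_, isOpen_interior.inter
      (isOpen_lt continuous_const (continuous_aff f)), ⟨h.inn, hfp⟩⟩
    rintro x ⟨hx1, hx2⟩
    exact ⟨interior_subset hx1, le_of_lt hx2⟩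
  · left
    linarith
  · rintro P'' ⟨hP1, hP2⟩
    refine ⟨hP1.trans (cutSet_subset P a b α β), ?_⟩
    intro x hxP hxP''
    have hx0 := h.nonneg x hxP
    by_cases hxc : x ∈ cutSet P a b α β
    · obtain ⟨h5, h6⟩ := hP2 x hxc hxP''
      refine ⟨?_, by linarith⟩
      rw [hav]
      have h7 : 0 ≤ b x / β := div_nonneg hx0.2 hβ.le
      have : α * (f x + 1 - b x / β) < α * (1 + δ') :=
        mul_lt_mul_of_pos_left (by linarith) hα
      linarith
    · have h5 : f x < 0 := by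
        by_contra hneg
        exact hxc ⟨hxP, not_lt.mp hneg⟩
      rw [hfv] at h5
      have h6 : 0 ≤ a x / α := div_nonneg hx0.1 hα.le
      have h7 : 0 ≤ b x / β := div_nonneg hx0.2 hβ.le
      have h8 : a x / α < 1 := by linarith
      have h9 : b x / β < 1 := by linarith
      rw [div_lt_one hα] at h8
      rw [div_lt_one hβ] at h9
      exact ⟨by linarith, by linarith⟩

theorem Corner.inn_fam {k : ℕ} {p : Plane} {P P'' : Set Plane} {a b : Plane →ᵃ[ℝ] ℝ} {δ : ℝ}
    (h : Corner k p P a b δ) (hF : Fam P a b δ P'') : p ∈ interior P'' := by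
  rw [mem_interior]
  rcases h.far with hf | hf
  · refine ⟨interior P ∩ {x | δ < a x}, ?_, isOpen_interior.inter
      (isOpen_lt continuous_const (continuous_aff a)), ⟨h.inn, hf⟩⟩
    rintro x ⟨hx1, hx2⟩
    by_contra hne
    have := (hF.2 x (interior_subset hx1) hne).1
    have hx2' : δ < a x := hx2
    linarith
  · refine ⟨interior P ∩ {x | δ < b x}, ?_, isOpen_interior.inter
      (isOpen_lt continuous_const (continuous_aff b)), ⟨h.inn, hf⟩⟩
    rintro x ⟨hx1, hx2⟩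
    by_contra hne
    have := (hF.2 x (interior_subset hx1) hne).2
    have hx2' : δ < b x := hx2
    linarith

theorem exists_fam {p : Plane} : ∀ (h k : ℕ) (P : Set Plane) (a b : Plane →ᵃ[ℝ] ℝ) (δ : ℝ),
    Corner k p P a b δ → ∃ P'', IsConvexPolygon (k + h) P'' ∧ Fam P a b δ P'' := by
  intro h
  induction h with
  | zero =>
    intro k P a b δ hC
    exact ⟨P, hC.poly, Fam.refl P a b δ⟩
  | succ h ih =>
    intro k P a b δ hC
    have hδ := hC.pos
    obtain ⟨δ', hC', hF'⟩ := cut_corner hC (α := δ / 2) (β := δ / 2) (by linarith) (by linarith)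
      (by linarith) (by linarith)
    obtain ⟨P'', h1, h2⟩ := ih _ _ _ _ _ hC'
    refine ⟨P'', ?_, hF' P'' h2⟩
    rwa [show k + (h + 1) = k + 1 + h by ring]

/-- Equation of a line in affine coordinates. -/
theorem line_eq {a b : Plane →ᵃ[ℝ] ℝ} (hab : Frame a b) (l : Line) :
    ∃ A B C : ℝ, (A ≠ 0 ∨ B ≠ 0) ∧ ∀ x, x ∈ l.carrier ↔ A * a x + B * b x = C := by
  have hlin : ∀ (f : Plane →ᵃ[ℝ] ℝ) (t : ℝ), f (l.base + t • l.dir) = f l.base + t * f.linear l.dir := by
    intro f t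
    have := f.map_vadd l.base (t • l.dir)
    rw [vadd_eq_add, add_comm, map_smul] at this
    rw [this]
    simp
    ring
  set a1 := a.linear l.dir with ha1
  set b1 := b.linear l.dir with hb1
  have hne : a1 ≠ 0 ∨ b1 ≠ 0 := by
    by_contra hcon
    push Not at hcon
    have h1 : l.base + (1 : ℝ) • l.dir = l.base := by
      apply hab.inj
      · rw [hlin, ← ha1, hcon.1]; ring
      · rw [hlin, ← hb1, hcon.2]; ring
    have : l.dir = 0 := by simpa using h1
    exact l.dir_ne this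
  refine ⟨b1, -a1, b1 * a l.base - a1 * b l.base, ?_, ?_⟩
  · rcases hne with h | h
    · right; simpa using h
    · left; exact h
  · intro x
    constructor
    · rintro ⟨t, rfl⟩
      rw [hlin, hlin, ← ha1, ← hb1]
      ring
    · intro hx
      rcases hne with h | h
      · refine ⟨(a x - a l.base) / a1, ?_⟩
        apply hab.inj
        · rw [hlin, ← ha1]; field_simp; ring
        · rw [hlin, ← hb1]; field_simp; linarith
      · refine ⟨(b x - b l.base) / b1, ?_⟩
        apply hab.inj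
        · rw [hlin, ← ha1]; field_simp; linarith
        · rw [hlin, ← hb1]; field_simp; ring

/-- A line not through the corner avoids a small corner region. -/
theorem line_avoid {a b : Plane →ᵃ[ℝ] ℝ} (hab : Frame a b) (l : Line) {V : Plane}
    (hVa : a V = 0) (hVb : b V = 0) (hV : V ∉ l.carrier) :
    ∃ e > 0, ∀ x ∈ l.carrier, 0 ≤ a x → 0 ≤ b x → ¬ (a x < e ∧ b x < e) := by
  obtain ⟨A, B, C, hAB, heq⟩ := line_eq hab l
  have hC : C ≠ 0 := by
    intro h0
    apply hV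
    rw [heq, hVa, hVb, h0]; ring
  have hC' : 0 < |C| := abs_pos.mpr hC
  refine ⟨|C| / (|A| + |B| + 1), by positivity, ?_⟩
  rintro x hx h1 h2 ⟨h3, h4⟩
  rw [heq] at hx
  have hD : 0 < |A| + |B| + 1 := by positivity
  have h5 : |C| ≤ |A| * a x + |B| * b x := by
    rw [← hx]
    calc |A * a x + B * b x| ≤ |A * a x| + |B * b x| := abs_add_le _ _
      _ = |A| * a x + |B| * b x := by rw [abs_mul, abs_mul, abs_of_nonneg h1, abs_of_nonneg h2]
  set e := |C| / (|A| + |B| + 1) with he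
  have h6 : e * (|A| + |B| + 1) = |C| := by rw [he]; field_simp
  have he0 : 0 < e := by positivity
  have h7 : |A| * a x ≤ |A| * e := mul_le_mul_of_nonneg_left h3.le (abs_nonneg A)
  have h8 : |B| * b x ≤ |B| * e := mul_le_mul_of_nonneg_left h4.le (abs_nonneg B)
  nlinarith

theorem inter_eq_of_fam {P P'' : Set Plane} {a b : Plane →ᵃ[ℝ] ℝ} {δ : ℝ}
    (hnn : ∀ x ∈ P, 0 ≤ a x ∧ 0 ≤ b x) {l : Line}
    (hl : ∀ x ∈ l.carrier, 0 ≤ a x → 0 ≤ b x → ¬ (a x < δ ∧ b x < δ))
    (hF : Fam P a b δ P'') : l.carrier ∩ P'' = l.carrier ∩ P := by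
  apply Set.Subset.antisymm
  · exact Set.inter_subset_inter_right _ hF.1
  · rintro x ⟨hx1, hx2⟩
    refine ⟨hx1, ?_⟩
    by_contra hne
    have h0 := hnn x hx2
    exact hl x hx1 h0.1 h0.2 (hF.2 x hx2 hne)

end Pool.MPf9c708
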