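import Pool.Agent.Lib.MP_f9c708_lc.Tri3

namespace Pool.MPf9c708

open Set

/-- `v` is a vertex of `Tri f g`. -/
def VertexOf (f g : Plane →ᵃ[ℝ] ℝ) (v : Plane) : Prop :=
  f v = 0 ∧ g v = 0 ∨ g v = 0 ∧ third f g v = 0 ∨ third f g v = 0 ∧ f v = 0

theorem CFrame.neg1 {p u1 u2 : Plane} {s t : Plane →ᵃ[ℝ] ℝ} (h : CFrame p u1 u2 s t) :
    CFrame p (-u1) u2 (-s) t := by
  refine ⟨⟨?_, ?_⟩, ?_, ?_⟩
  · intro x y h1 h2
    apply h.frame.inj _ _ _ h2
    have h1' : -(s x) = -(s y) := h1
    linarith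
  · intro a b
    obtain ⟨x, h1, h2⟩ := h.frame.surj (-a) b
    refine ⟨x, ?_, h2⟩
    show -(s x) = a
    rw [h1]; ring
  · intro x y
    show -(s _) = x
    have : p + x • (-u1) + y • u2 = p + (-x) • u1 + y • u2 := by module
    rw [this, h.hs]; ring
  · intro x y
    have : p + x • (-u1) + y • u2 = p + (-x) • u1 + y • u2 := by module
    rw [this, h.ht]

theorem CFrame.neg2 {p u1 u2 : Plane} {s t : Plane →ᵃ[ℝ] ℝ} (h : CFrame p u1 u2 s t) :
    CFrame p u1 (-u2) s (-t) := by
  refine ⟨⟨?_, ?_⟩, ?_, ?_⟩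
  · intro x y h1 h2
    apply h.frame.inj _ _ h1
    have h2' : -(t x) = -(t y) := h2
    linarith
  · intro a b
    obtain ⟨x, h1, h2⟩ := h.frame.surj a (-b)
    refine ⟨x, h1, ?_⟩
    show -(t x) = b
    rw [h2]; ring
  · intro x y
    have : p + x • u1 + y • (-u2) = p + x • u1 + (-y) • u2 := by module
    rw [this, h.hs]
  · intro x y
    show -(t _) = y
    have : p + x • u1 + y • (-u2) = p + x • u1 + (-y) • u2 := by module
    rw [this, h.ht]; ring

theorem CFrame.on1 {p u1 u2 : Plane} {s t : Plane →ᵃ[ℝ] ℝ} (h : CFrame p u1 u2 s t) (τ : ℝ) :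
    s (p + τ • u1) = τ ∧ t (p + τ • u1) = 0 := by
  have h1 := h.hs τ 0
  have h2 := h.ht τ 0
  rw [zero_smul, add_zero] at h1 h2
  exact ⟨h1, h2⟩

theorem CFrame.on2 {p u1 u2 : Plane} {s t : Plane →ᵃ[ℝ] ℝ} (h : CFrame p u1 u2 s t) (τ : ℝ) :
    s (p + τ • u2) = 0 ∧ t (p + τ • u2) = τ := by
  have h1 := h.hs 0 τ
  have h2 := h.ht 0 τ
  rw [zero_smul, add_zero] at h1 h2
  exact ⟨h1, h2⟩

/-- What we need from a triangle: consistency with central probes in the directions of `U`. -/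
def GoodTri (p : Plane) (U : Set Plane) (f g : Plane →ᵃ[ℝ] ℝ) : Prop :=
  Frame f g ∧ 0 < f p ∧ 0 < g p ∧ 0 < third f g p ∧
    ∀ u ∈ U, ∀ l, CentralLine p u l → chordLength l (Tri f g) = 1 ∧
      ∀ v, VertexOf f g v → v ∉ l.carrier

/-- Verification of `GoodTri` from explicit functionals. -/
theorem goodTri_of {p : Plane} {U : Set Plane} (hU : ∀ u ∈ U, ‖u‖ = 1)
    {f g : Plane →ᵃ[ℝ] ℝ} (hfg : Frame f g) (h1 : 0 < f p) (h2 : 0 < g p) (h3 : 0 < third f g p)
    (hmem : ∀ u ∈ U, ∃ r : ℝ, ∀ τ : ℝ, p + τ • u ∈ Tri f g ↔ -r ≤ τ ∧ τ ≤ 1 - r)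
    (hv : ∀ u ∈ U, ∀ τ : ℝ, ¬ VertexOf f g (p + τ • u)) : GoodTri p U f g := by
  refine ⟨hfg, h1, h2, h3, ?_⟩
  intro u hu l hl
  obtain ⟨r, hr⟩ := hmem u hu
  refine ⟨chord_eq_one (hU u hu) hl hr, ?_⟩
  intro v hvv hvl
  rw [show l.carrier = {x | ∃ τ : ℝ, x = p + τ • u} from hl] at hvl
  obtain ⟨τ, rfl⟩ := hvl
  exact hv u hu τ hvv

theorem lemmaC_norm {p u1 u2 : Plane} (hu1 : ‖u1‖ = 1) (hu2 : ‖u2‖ = 1)
    {s t : Plane →ᵃ[ℝ] ℝ} (h : CFrame p u1 u2 s t) {A B C : ℝ} (hA : 0 ≤ A) (hB : 0 ≤ B)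
    (hC : 0 < C) :
    ∃ f g, GoodTri p {u1, u2} f g ∧ ∀ x, -A * s x - B * t x = C → x ∉ Tri f g := by
  set e := C / 16 with he
  set η := C / 64 with hη
  have he0 : 0 < e := by positivity
  have hη0 : 0 < η := by positivity
  have hηe : η = e / 4 := by rw [hη, he]; ring
  set P := A + e with hP
  set Q := B + e with hQ
  have hP0 : 0 < P := by positivity
  have hQ0 : 0 < Q := by positivity
  set r1 := η / P with hr1
  set r2 := η / Q with hr2
  have hr1P : r1 * P = η := by rw [hr1]; field_simp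
  have hr2Q : r2 * Q = η := by rw [hr2]; field_simp
  have hr1' : 0 < r1 := by positivity
  have hr2' : 0 < r2 := by positivity
  have hr1'' : r1 ≤ 1 / 4 := by
    rw [hr1, div_le_iff₀ hP0, hηe, hP]; linarith
  have hr2'' : r2 ≤ 1 / 4 := by
    rw [hr2, div_le_iff₀ hQ0, hηe, hQ]; linarith
  have h1r1 : 0 < 1 - r1 := by linarith
  have h1r2 : 0 < 1 - r2 := by linarith
  set α := 1 / (1 - r1) with hα
  set β := 1 / (1 - r2) with hβ
  have hα1 : 1 ≤ α := by rw [hα, le_div_iff₀ h1r1]; linarith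
  have hβ1 : 1 ≤ β := by rw [hβ, le_div_iff₀ h1r2]; linarith
  have hαr : α * (1 - r1) = 1 := by rw [hα]; field_simp
  have hβr : β * (1 - r2) = 1 := by rw [hβ]; field_simp
  have hαβ : 1 ≤ α * β := by nlinarith
  obtain ⟨f, g, ca, cb, cc, hca, hcb, hcc, hf, hg, hth, hfr⟩ :=
    mk_tri h (α1 := α) (α2 := -1 / 2) (β1 := -1 / 2) (β2 := β) (P := P) (Q := Q) (η := η)
      (by linarith) (by nlinarith) (by nlinarith) hη0
  have hmemT : ∀ x, x ∈ Tri f g ↔ 0 ≤ 1 - α * s x + 1 / 2 * t x ∧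
      0 ≤ 1 + 1 / 2 * s x - β * t x ∧ 0 ≤ η + P * s x + Q * t x := by
    intro x
    unfold Tri
    rw [Set.mem_ofPred_eq, hf, hg, hth]
    constructor
    · rintro ⟨e1, e2, e3⟩
      refine ⟨?_, ?_, ?_⟩
      · have := nonneg_of_mul_nonneg_right e1 hca
        linarith
      · have := nonneg_of_mul_nonneg_right e2 hcb
        linarith
      · exact nonneg_of_mul_nonneg_right e3 hcc
    · rintro ⟨e1, e2, e3⟩
      exact ⟨mul_nonneg hca.le (by linarith), mul_nonneg hcb.le (by linarith),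
        mul_nonneg hcc.le e3⟩
  have hz : ∀ x, (f x = 0 → 1 - α * s x + 1 / 2 * t x = 0) ∧
      (g x = 0 → 1 + 1 / 2 * s x - β * t x = 0) ∧
      (third f g x = 0 → η + P * s x + Q * t x = 0) := by
    intro x
    rw [hf, hg, hth]
    refine ⟨fun e => ?_, fun e => ?_, fun e => ?_⟩
    · have := (mul_eq_zero.mp e).resolve_left hca.ne'
      linarith
    · have := (mul_eq_zero.mp e).resolve_left hcb.ne'
      linarith
    · exact (mul_eq_zero.mp e).resolve_left hcc.ne'
  refine ⟨f, g, ?_, ?_⟩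
  · apply goodTri_of (by rintro u (rfl | rfl) <;> assumption) hfr
    · rw [hf, h.s_p, h.t_p]; simpa using hca
    · rw [hg, h.s_p, h.t_p]; simpa using hcb
    · rw [hth, h.s_p, h.t_p]; simp; positivity
    · rintro u (rfl | rfl)
      · refine ⟨r1, fun τ => ?_⟩
        rw [hmemT, (h.on1 τ).1, (h.on1 τ).2]
        constructor
        · rintro ⟨e1, e2, e3⟩
          refine ⟨?_, ?_⟩
          · have : 0 ≤ P * (r1 + τ) := by linarith
            have := nonneg_of_mul_nonneg_right this hP0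
            linarith
          · have : 0 ≤ α * ((1 - r1) - τ) := by linarith
            have := nonneg_of_mul_nonneg_right this (by linarith : 0 < α)
            linarith
        · rintro ⟨e1, e2⟩
          refine ⟨?_, by linarith, ?_⟩
          · have : 0 ≤ α * ((1 - r1) - τ) := mul_nonneg (by linarith) (by linarith)
            linarith
          · have : 0 ≤ P * (r1 + τ) := mul_nonneg hP0.le (by linarith)
            linarith
      · refine ⟨r2, fun τ => ?_⟩
        rw [hmemT, (h.on2 τ).1, (h.on2 τ).2]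
        constructor
        · rintro ⟨e1, e2, e3⟩
          refine ⟨?_, ?_⟩
          · have : 0 ≤ Q * (r2 + τ) := by linarith
            have := nonneg_of_mul_nonneg_right this hQ0
            linarith
          · have : 0 ≤ β * ((1 - r2) - τ) := by linarith
            have := nonneg_of_mul_nonneg_right this (by linarith : 0 < β)
            linarith
        · rintro ⟨e1, e2⟩
          refine ⟨by linarith, ?_, ?_⟩
          · have : 0 ≤ β * ((1 - r2) - τ) := mul_nonneg (by linarith) (by linarith)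
            linarith
          · have : 0 ≤ Q * (r2 + τ) := mul_nonneg hQ0.le (by linarith)
            linarith
    · rintro u (rfl | rfl) τ hv
      · have hzz := hz (p + τ • u)
        rw [(h.on1 τ).1, (h.on1 τ).2] at hzz
        have k1 : 1 - α * τ + 1 / 2 * 0 = 0 → τ = 1 - r1 := by
          intro e
          have : α * (τ - (1 - r1)) = 0 := by linarith
          have := (mul_eq_zero.mp this).resolve_left (by linarith)
          linarith
        have k3 : η + P * τ + Q * 0 = 0 → τ = -r1 := by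
          intro e
          have : P * (τ + r1) = 0 := by linarith
          have := (mul_eq_zero.mp this).resolve_left hP0.ne'
          linarith
        rcases hv with ⟨e1, e2⟩ | ⟨e1, e2⟩ | ⟨e1, e2⟩
        · have := k1 (hzz.1 e1); have := hzz.2.1 e2; linarith
        · have := hzz.2.1 e1; have := k3 (hzz.2.2 e2); linarith
        · have := k3 (hzz.2.2 e1); have := k1 (hzz.1 e2); linarith
      · have hzz := hz (p + τ • u)
        rw [(h.on2 τ).1, (h.on2 τ).2] at hzz
        have k2 : 1 + 1 / 2 * 0 - β * τ = 0 → τ = 1 - r2 := by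
          intro e
          have : β * (τ - (1 - r2)) = 0 := by linarith
          have := (mul_eq_zero.mp this).resolve_left (by linarith)
          linarith
        have k3 : η + P * 0 + Q * τ = 0 → τ = -r2 := by
          intro e
          have : Q * (τ + r2) = 0 := by linarith
          have := (mul_eq_zero.mp this).resolve_left hQ0.ne'
          linarith
        rcases hv with ⟨e1, e2⟩ | ⟨e1, e2⟩ | ⟨e1, e2⟩
        · have := hzz.1 e1; have := k2 (hzz.2.1 e2); linarith
        · have := k2 (hzz.2.1 e1); have := k3 (hzz.2.2 e2); linarith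
        · have := k3 (hzz.2.2 e1); have := hzz.1 e2; linarith
  · intro x hx hxT
    rw [hmemT] at hxT
    obtain ⟨e1, e2, e3⟩ := hxT
    -- s + t ≤ 4
    have hst : s x + t x ≤ 4 := by
      by_contra hcon
      push Not at hcon
      rcases le_or_gt 0 (s x) with hs0 | hs0
      · rcases le_or_gt 0 (t x) with ht0 | ht0
        · have : s x ≤ α * s x := by nlinarith
          have : t x ≤ β * t x := by nlinarith
          linarith
        · have : s x ≤ α * s x := by nlinarith
          linarith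
      · have ht0 : 0 < t x := by linarith
        have : t x ≤ β * t x := by nlinarith
        linarith
    have h5 : η + P * s x + Q * t x = η - C + e * (s x + t x) := by
      rw [hP, hQ]; linear_combination -hx
    rw [h5] at e3
    have : e * (s x + t x) ≤ e * 4 := mul_le_mul_of_nonneg_left hst he0.le
    rw [he, hη] at *
    linarith

theorem lemmaC {p u1 u2 : Plane} (hu1 : ‖u1‖ = 1) (hu2 : ‖u2‖ = 1) (hcr : cr u1 u2 ≠ 0)
    (l : Line) (hl : p ∉ l.carrier) :
    ∃ f g, GoodTri p {u1, u2} f g ∧ ∀ x ∈ l.carrier, x ∉ Tri f g := by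
  obtain ⟨s, t, h⟩ := exists_cframe p u1 u2 hcr
  obtain ⟨A0, B0, C0, hAB0, heq0⟩ := line_eq h.frame l
  have hC0 : C0 ≠ 0 := by
    intro h0
    apply hl
    rw [heq0, h.s_p, h.t_p, h0]; ring
  -- normalise the sign of C
  obtain ⟨A, B, C, hC, heq⟩ : ∃ A B C : ℝ, 0 < C ∧ ∀ x, x ∈ l.carrier → A * s x + B * t x = C := by
    rcases lt_or_gt_of_ne hC0 with hneg | hpos
    · refine ⟨-A0, -B0, -C0, by linarith, fun x hx => ?_⟩
      have := (heq0 x).mp hx
      linarith
    · exact ⟨A0, B0, C0, hpos, fun x hx => (heq0 x).mp hx⟩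
  have hgneg : ∀ (w1 w2 : Plane) (f g : Plane →ᵃ[ℝ] ℝ), (w1 = u1 ∨ w1 = -u1) →
      (w2 = u2 ∨ w2 = -u2) → GoodTri p {w1, w2} f g → GoodTri p {u1, u2} f g := by
    rintro w1 w2 f g hw1 hw2 ⟨g1, g2, g3, g4, g5⟩
    refine ⟨g1, g2, g3, g4, ?_⟩
    rintro u (rfl | rfl) l' hl'
    · rcases hw1 with rfl | rfl
      · exact g5 _ (by simp) l' hl'
      · exact g5 _ (by simp) l' hl'.neg
    · rcases hw2 with rfl | rfl
      · exact g5 _ (by simp) l' hl'
      · exact g5 _ (by simp) l' hl'.neg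
  rcases le_total A 0 with hA | hA <;> rcases le_total B 0 with hB | hB
  · obtain ⟨f, g, h1, h2⟩ := lemmaC_norm hu1 hu2 h (A := -A) (B := -B) (C := C) (by linarith)
      (by linarith) hC
    refine ⟨f, g, h1, fun x hx => h2 x ?_⟩
    have := heq x hx
    linarith
  · obtain ⟨f, g, h1, h2⟩ := lemmaC_norm hu1 (by rwa [norm_neg]) h.neg2 (A := -A) (B := B) (C := C)
      (by linarith) hB hC
    refine ⟨f, g, hgneg _ _ _ _ (Or.inl rfl) (Or.inr rfl) h1, fun x hx => h2 x ?_⟩
    have := heq x hx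
    show - -A * s x - B * (-(t x)) = C
    linarith
  · obtain ⟨f, g, h1, h2⟩ := lemmaC_norm (by rwa [norm_neg]) hu2 h.neg1 (A := A) (B := -B) (C := C)
      hA (by linarith) hC
    refine ⟨f, g, hgneg _ _ _ _ (Or.inr rfl) (Or.inl rfl) h1, fun x hx => h2 x ?_⟩
    have := heq x hx
    show -A * (-(s x)) - -B * t x = C
    linarith
  · obtain ⟨f, g, h1, h2⟩ := lemmaC_norm (by rwa [norm_neg]) (by rwa [norm_neg]) h.neg1.neg2
      (A := A) (B := B) (C := C) hA hB hC
    refine ⟨f, g, hgneg _ _ _ _ (Or.inr rfl) (Or.inr rfl) h1, fun x hx => h2 x ?_⟩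
    have := heq x hx
    show -A * (-(s x)) - B * (-(t x)) = C
    linarith

end Pool.MPf9c708
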