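import Mathlib

namespace Pool.MPf9c708

open Filter Topology

/-- second coefficient of the third edge -/
noncomputable def bet (m k Q θ η : ℝ) : ℝ := (1 / (1 - η / (k * Q - m)) - m * θ) / k

/-- Smallness conditions. -/
structure Ok (m k Q θ η : ℝ) : Prop where
  c0 : 0 < η
  c1 : η < 1
  c2 : η < Q
  c3 : η < k * Q - m
  d1 : 0 < (1 / (1 - η)) * bet m k Q θ η + (1 / (1 - η / Q)) * θ
  d2 : 0 < bet m k Q θ η + Q * θ
  d3 : 0 < (1 / (1 - η)) * Q - 1 / (1 - η / Q)
  d4 : 0 < 1 - θ * η
  d5 : 0 < 1 - bet m k Q θ η * (1 - η / Q)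
  d6 : 0 < 1 + bet m k Q θ η * (η / Q)
  d7 : 0 < 1 - (1 - η / (k * Q - m)) * (k * (1 / (1 - η / Q)) - m * (1 / (1 - η)))
  d8 : 0 < 1 + (η / (k * Q - m)) * (k * (1 / (1 - η / Q)) - m * (1 / (1 - η)))

theorem ok_eventually {m k Q θ : ℝ} (hm : 0 < m) (hk : 0 < k) (hkm : k < 1 + m) (hQ : 1 < Q)
    (hkQ : m < k * Q) (hθ : 0 < θ) (hθ1 : 1 ≤ m * θ) (hθ2 : (m - k) * θ < 1) :
    ∀ᶠ η in 𝓝[>] (0 : ℝ), Ok m k Q θ η := by
  have hbc : ContinuousAt (fun η => bet m k Q θ η) 0 := by
    unfold bet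
    refine ContinuousAt.div_const (ContinuousAt.sub (ContinuousAt.div continuousAt_const
      (by fun_prop) (by simp)) continuousAt_const) _
  have hb0 : bet m k Q θ 0 = (1 - m * θ) / k := by
    unfold bet; simp
  have ha1 : ContinuousAt (fun η : ℝ => 1 / (1 - η)) 0 :=
    ContinuousAt.div continuousAt_const (by fun_prop) (by simp)
  have ha2 : ContinuousAt (fun η : ℝ => 1 / (1 - η / Q)) 0 :=
    ContinuousAt.div continuousAt_const (by fun_prop) (by simp)
  have key : ∀ F : ℝ → ℝ, ContinuousAt F 0 → 0 < F 0 → ∀ᶠ η in 𝓝[>] (0 : ℝ), 0 < F η := by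
    intro F hF h0
    exact (hF.eventually (lt_mem_nhds h0)).filter_mono nhdsWithin_le_nhds
  have e0 : ∀ᶠ η in 𝓝[>] (0 : ℝ), 0 < η := eventually_mem_nhdsWithin
  have e1 := key (fun η => 1 - η) (by fun_prop) (by norm_num)
  have e2 := key (fun η => Q - η) (by fun_prop) (by simp; linarith)
  have e3 := key (fun η => k * Q - m - η) (by fun_prop) (by simp; linarith)
  have f1 := key (fun η => (1 / (1 - η)) * bet m k Q θ η + (1 / (1 - η / Q)) * θ)
    ((ha1.mul hbc).add (ha2.mul continuousAt_const)) (by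
      simp only [hb0]
      have : (1 / (1 - 0)) * ((1 - m * θ) / k) + (1 / (1 - 0 / Q)) * θ
          = (1 - (m - k) * θ) / k := by
        rw [zero_div, sub_zero, div_one, one_mul, one_mul]
        field_simp; ring
      rw [this]
      exact div_pos (by linarith) hk)
  have f2 := key (fun η => bet m k Q θ η + Q * θ) (hbc.add continuousAt_const) (by
      simp only [hb0]
      have : (1 - m * θ) / k + Q * θ = (1 + (k * Q - m) * θ) / k := by
        field_simp; ring
      rw [this]
      exact div_pos (by nlinarith) hk)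
  have f3 := key (fun η => (1 / (1 - η)) * Q - 1 / (1 - η / Q))
    ((ha1.mul continuousAt_const).sub ha2) (by simp; linarith)
  have f4 := key (fun η => 1 - θ * η) (by fun_prop) (by simp)
  have f5 := key (fun η => 1 - bet m k Q θ η * (1 - η / Q))
    (continuousAt_const.sub (hbc.mul (by fun_prop))) (by
      simp only [hb0]
      have : (1 - m * θ) / k ≤ 0 := div_nonpos_of_nonpos_of_nonneg (by linarith) hk.le
      simp
      linarith)
  have f6 := key (fun η => 1 + bet m k Q θ η * (η / Q))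
    (continuousAt_const.add (hbc.mul (by fun_prop))) (by simp)
  have f7 := key (fun η => 1 - (1 - η / (k * Q - m)) * (k * (1 / (1 - η / Q)) - m * (1 / (1 - η))))
    (continuousAt_const.sub ((by fun_prop : ContinuousAt (fun η : ℝ => 1 - η / (k * Q - m)) 0).mul
      ((continuousAt_const.mul ha2).sub (continuousAt_const.mul ha1)))) (by
      simp
      linarith)
  have f8 := key (fun η => 1 + (η / (k * Q - m)) * (k * (1 / (1 - η / Q)) - m * (1 / (1 - η))))
    (continuousAt_const.add ((by fun_prop : ContinuousAt (fun η : ℝ => η / (k * Q - m)) 0).mul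
      ((continuousAt_const.mul ha2).sub (continuousAt_const.mul ha1)))) (by simp)
  filter_upwards [e0, e1, e2, e3, f1, f2, f3, f4, f5, f6, f7, f8] with η h0 h1 h2 h3 g1 g2 g3 g4
    g5 g6 g7 g8
  exact ⟨h0, by linarith, by linarith, by linarith, g1, g2, g3, g4, g5, g6, g7, g8⟩

end Pool.MPf9c708
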