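import Pool.Agent.Lib.MP_f9c708_lc.LemC
import Pool.Agent.Lib.MP_f9c708_lc.Ok

namespace Pool.MPf9c708

open Set Filter Topology

theorem two_pts {a1 a2 c A B C x y x' y' z w : ℝ} (h : a1 ≠ 0 ∨ a2 ≠ 0)
    (h1 : a1 * x + a2 * y = c) (h2 : a1 * x' + a2 * y' = c) (h3 : A * x + B * y = C)
    (h4 : A * x' + B * y' = C) (hne : x ≠ x' ∨ y ≠ y') (h5 : a1 * z + a2 * w = c) :
    A * z + B * w = C := by
  have hcr : (z - x) * (y - y') - (w - y) * (x - x') = 0 := by
    rcases h with h | h
    · have : a1 * ((z - x) * (y - y') - (w - y) * (x - x')) = 0 := by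
        linear_combination (y - y') * (h5 - h1) - (w - y) * (h1 - h2)
      exact (mul_eq_zero.mp this).resolve_left h
    · have : a2 * ((z - x) * (y - y') - (w - y) * (x - x')) = 0 := by
        linear_combination (z - x) * (h1 - h2) - (x - x') * (h5 - h1)
      exact (mul_eq_zero.mp this).resolve_left h
  have hd : A * (x - x') + B * (y - y') = 0 := by linarith
  have hmain : A * (z - x) + B * (w - y) = 0 := by
    rcases hne with hne | hne
    · have : (x - x') * (A * (z - x) + B * (w - y)) = 0 := by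
        linear_combination (z - x) * hd - B * hcr
      exact (mul_eq_zero.mp this).resolve_left (sub_ne_zero.mpr hne)
    · have : (y - y') * (A * (z - x) + B * (w - y)) = 0 := by
        linear_combination (w - y) * hd + A * hcr
      exact (mul_eq_zero.mp this).resolve_left (sub_ne_zero.mpr hne)
  linarith

theorem CFrame.on3 {p u1 u2 u3 : Plane} {s t : Plane →ᵃ[ℝ] ℝ} (h : CFrame p u1 u2 s t)
    {m k : ℝ} (hu3 : u3 = (-m) • u1 + k • u2) (τ : ℝ) :
    s (p + τ • u3) = -(m * τ) ∧ t (p + τ • u3) = k * τ := by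
  have e : p + τ • u3 = p + (-(m * τ)) • u1 + (k * τ) • u2 := by
    rw [hu3]; module
  rw [e, h.hs, h.ht]
  exact ⟨rfl, rfl⟩

theorem good_of_ok {p u1 u2 u3 : Plane} (hu1 : ‖u1‖ = 1) (hu2 : ‖u2‖ = 1) (hu3 : ‖u3‖ = 1)
    {s t : Plane →ᵃ[ℝ] ℝ} (h : CFrame p u1 u2 s t) {m k Q θ η : ℝ} (hk : 0 < k)
    (h3 : u3 = (-m) • u1 + k • u2) (hQ : 1 < Q) (hkQ : m < k * Q) (hθ : 0 < θ) (hok : Ok m k Q θ η) :
    ∃ f g, GoodTri p {u1, u2, u3} f g ∧
      (∀ x, f x = 0 → (1 / (1 - η)) * s x + (1 / (1 - η / Q)) * t x = 1) ∧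
      (∀ x, g x = 0 → -θ * s x + bet m k Q θ η * t x = 1) ∧
      (∀ x, third f g x = 0 → 1 * s x + Q * t x = -η) := by
  obtain ⟨c0, c1, c2, c3, d1, d2, d3, d4, d5, d6, d7, d8⟩ := hok
  have hQ0 : 0 < Q := by linarith
  have hR0 : 0 < k * Q - m := by linarith
  set r2 := η / Q with hr2
  set r3 := η / (k * Q - m) with hr3
  set α1 := 1 / (1 - η) with hα1
  set α2 := 1 / (1 - r2) with hα2
  set b := bet m k Q θ η with hb
  have hr2' : 0 < r2 := by positivity
  have hr3' : 0 < r3 := by positivity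
  have hr2'' : r2 < 1 := by rw [hr2, div_lt_one hQ0]; exact c2
  have hr3'' : r3 < 1 := by rw [hr3, div_lt_one hR0]; exact c3
  have h11 : 0 < 1 - η := by linarith
  have h12 : 0 < 1 - r2 := by linarith
  have h13 : 0 < 1 - r3 := by linarith
  have hα1p : 0 < α1 := by positivity
  have hα2p : 0 < α2 := by positivity
  have hα1r : α1 * (1 - η) = 1 := by rw [hα1]; field_simp
  have hα2r : α2 * (1 - r2) = 1 := by rw [hα2]; field_simp
  have hr2Q : r2 * Q = η := by rw [hr2]; field_simp
  have hr3Q : r3 * (k * Q - m) = η := by rw [hr3]; field_simp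
  have hbb : k * b = 1 / (1 - r3) - m * θ := by
    rw [hb]; unfold bet; rw [← hr3]; field_simp
  have hbb' : (m * θ + k * b) * (1 - r3) = 1 := by
    rw [hbb]; field_simp; ring
  have hδ : 0 < m * θ + k * b := by
    by_contra hcon
    push Not at hcon
    nlinarith
  obtain ⟨f, g, ca, cb, cc, hca, hcb, hcc, hf, hg, hth, hfr⟩ :=
    mk_tri h (α1 := α1) (α2 := α2) (β1 := -θ) (β2 := b) (P := 1) (Q := Q) (η := η)
      (by linarith) (by linarith) (by linarith) c0
  have hmemT : ∀ x, x ∈ Tri f g ↔ 0 ≤ 1 - α1 * s x - α2 * t x ∧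
      0 ≤ 1 + θ * s x - b * t x ∧ 0 ≤ η + s x + Q * t x := by
    intro x
    unfold Tri
    rw [Set.mem_ofPred_eq, hf, hg, hth]
    constructor
    · rintro ⟨e1, e2, e3⟩
      refine ⟨?_, ?_, ?_⟩
      · have := nonneg_of_mul_nonneg_right e1 hca
        linarith
      · have := nonneg_of_mul_nonneg_right e2 hcb
        linarith
      · have := nonneg_of_mul_nonneg_right e3 hcc
        linarith
    · rintro ⟨e1, e2, e3⟩
      exact ⟨mul_nonneg hca.le (by linarith), mul_nonneg hcb.le (by linarith),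
        mul_nonneg hcc.le (by linarith)⟩
  have hz : ∀ x, (f x = 0 → 1 - α1 * s x - α2 * t x = 0) ∧
      (g x = 0 → 1 + θ * s x - b * t x = 0) ∧
      (third f g x = 0 → η + s x + Q * t x = 0) := by
    intro x
    rw [hf, hg, hth]
    refine ⟨fun e => ?_, fun e => ?_, fun e => ?_⟩
    · have := (mul_eq_zero.mp e).resolve_left hca.ne'
      linarith
    · have := (mul_eq_zero.mp e).resolve_left hcb.ne'
      linarith
    · have := (mul_eq_zero.mp e).resolve_left hcc.ne'
      linarith
  refine ⟨f, g, ?_, ?_, ?_, ?_⟩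
  · apply goodTri_of (by rintro u (rfl | rfl | rfl) <;> assumption) hfr
    · rw [hf, h.s_p, h.t_p]; simpa using hca
    · rw [hg, h.s_p, h.t_p]; simpa using hcb
    · rw [hth, h.s_p, h.t_p]; simp; positivity
    · rintro u (rfl | rfl | rfl)
      · refine ⟨η, fun τ => ?_⟩
        rw [hmemT, (h.on1 τ).1, (h.on1 τ).2]
        constructor
        · rintro ⟨e1, e2, e3⟩
          refine ⟨by linarith, ?_⟩
          have : 0 ≤ α1 * ((1 - η) - τ) := by linarith
          have := nonneg_of_mul_nonneg_right this hα1p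
          linarith
        · rintro ⟨e1, e2⟩
          refine ⟨?_, ?_, by linarith⟩
          · have : 0 ≤ α1 * ((1 - η) - τ) := mul_nonneg hα1p.le (by linarith)
            linarith
          · -- 1 + θ τ ≥ 0
            have k1 : 0 ≤ θ * (τ + η) := mul_nonneg hθ.le (by linarith)
            linarith
      · refine ⟨r2, fun τ => ?_⟩
        rw [hmemT, (h.on2 τ).1, (h.on2 τ).2]
        constructor
        · rintro ⟨e1, e2, e3⟩
          refine ⟨?_, ?_⟩
          · have : 0 ≤ Q * (r2 + τ) := by linarith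
            have := nonneg_of_mul_nonneg_right this hQ0
            linarith
          · have : 0 ≤ α2 * ((1 - r2) - τ) := by linarith
            have := nonneg_of_mul_nonneg_right this hα2p
            linarith
        · rintro ⟨e1, e2⟩
          refine ⟨?_, ?_, ?_⟩
          · have : 0 ≤ α2 * ((1 - r2) - τ) := mul_nonneg hα2p.le (by linarith)
            linarith
          · rcases le_total 0 b with hb0 | hb0
            · nlinarith
            · nlinarith
          · have : 0 ≤ Q * (r2 + τ) := mul_nonneg hQ0.le (by linarith)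
            linarith
      · refine ⟨r3, fun τ => ?_⟩
        rw [hmemT, (h.on3 h3 τ).1, (h.on3 h3 τ).2]
        constructor
        · rintro ⟨e1, e2, e3⟩
          refine ⟨?_, ?_⟩
          · have : 0 ≤ (k * Q - m) * (r3 + τ) := by linarith
            have := nonneg_of_mul_nonneg_right this hR0
            linarith
          · have : 0 ≤ (m * θ + k * b) * ((1 - r3) - τ) := by linarith
            have := nonneg_of_mul_nonneg_right this hδ
            linarith
        · rintro ⟨e1, e2⟩
          refine ⟨?_, ?_, ?_⟩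
          · rcases le_total 0 (k * α2 - m * α1) with hb0 | hb0
            · nlinarith
            · nlinarith
          · have : 0 ≤ (m * θ + k * b) * ((1 - r3) - τ) := mul_nonneg hδ.le (by linarith)
            linarith
          · have : 0 ≤ (k * Q - m) * (r3 + τ) := mul_nonneg hR0.le (by linarith)
            linarith
    · rintro u (rfl | rfl | rfl) τ hv
      · have hzz := hz (p + τ • u)
        rw [(h.on1 τ).1, (h.on1 τ).2] at hzz
        have k1 : 1 - α1 * τ - α2 * 0 = 0 → τ = 1 - η := by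
          intro e
          have : α1 * (τ - (1 - η)) = 0 := by linarith
          have := (mul_eq_zero.mp this).resolve_left hα1p.ne'
          linarith
        have k3 : η + τ + Q * 0 = 0 → τ = -η := by
          intro e
          linarith
        rcases hv with ⟨e1, e2⟩ | ⟨e1, e2⟩ | ⟨e1, e2⟩
        · have h1 := k1 (hzz.1 e1)
          have h2 := hzz.2.1 e2
          rw [h1] at h2
          nlinarith
        · have h1 := k3 (hzz.2.2 e2)
          have h2 := hzz.2.1 e1
          rw [h1] at h2
          nlinarith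
        · have := k3 (hzz.2.2 e1); have := k1 (hzz.1 e2); linarith
      · have hzz := hz (p + τ • u)
        rw [(h.on2 τ).1, (h.on2 τ).2] at hzz
        have k1 : 1 - α1 * 0 - α2 * τ = 0 → τ = 1 - r2 := by
          intro e
          have : α2 * (τ - (1 - r2)) = 0 := by linarith
          have := (mul_eq_zero.mp this).resolve_left hα2p.ne'
          linarith
        have k3 : η + 0 + Q * τ = 0 → τ = -r2 := by
          intro e
          have : Q * (τ + r2) = 0 := by linarith
          have := (mul_eq_zero.mp this).resolve_left hQ0.ne'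
          linarith
        rcases hv with ⟨e1, e2⟩ | ⟨e1, e2⟩ | ⟨e1, e2⟩
        · have h1 := k1 (hzz.1 e1)
          have h2 := hzz.2.1 e2
          rw [h1] at h2
          linarith
        · have h1 := k3 (hzz.2.2 e2)
          have h2 := hzz.2.1 e1
          rw [h1] at h2
          linarith
        · have := k3 (hzz.2.2 e1); have := k1 (hzz.1 e2); linarith
      · have hzz := hz (p + τ • u)
        rw [(h.on3 h3 τ).1, (h.on3 h3 τ).2] at hzz
        have k2 : 1 + θ * -(m * τ) - b * (k * τ) = 0 → τ = 1 - r3 := by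
          intro e
          have : (m * θ + k * b) * (τ - (1 - r3)) = 0 := by linarith
          have := (mul_eq_zero.mp this).resolve_left hδ.ne'
          linarith
        have k3 : η + -(m * τ) + Q * (k * τ) = 0 → τ = -r3 := by
          intro e
          have : (k * Q - m) * (τ + r3) = 0 := by linarith
          have := (mul_eq_zero.mp this).resolve_left hR0.ne'
          linarith
        rcases hv with ⟨e1, e2⟩ | ⟨e1, e2⟩ | ⟨e1, e2⟩
        · have h1 := k2 (hzz.2.1 e2)
          have h2 := hzz.1 e1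
          rw [h1] at h2
          linarith
        · have := k2 (hzz.2.1 e1); have := k3 (hzz.2.2 e2); linarith
        · have h1 := k3 (hzz.2.2 e1)
          have h2 := hzz.1 e2
          rw [h1] at h2
          linarith
  · intro x hx
    have := (hz x).1 hx
    linarith
  · intro x hx
    have := (hz x).2.1 hx
    linarith
  · intro x hx
    have := (hz x).2.2 hx
    linarith

theorem pair_bad {m k θ θ' R a1 a2 c A B C x y x' y' z w b b' : ℝ} (hk : k ≠ 0) (hθ : θ ≠ θ')
    (hR : R ≠ 0) (hb : (m * θ + k * b) * R = 1) (hb' : (m * θ' + k * b') * R = 1)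
    (g1 : -θ * x + b * y = 1) (g2 : -θ' * x' + b' * y' = 1) (h : a1 ≠ 0 ∨ a2 ≠ 0)
    (e1 : a1 * x + a2 * y = c) (e2 : a1 * x' + a2 * y' = c) (l1 : A * x + B * y = C)
    (l2 : A * x' + B * y' = C) (hX : a1 * (-(m * R)) + a2 * (k * R) ≠ c)
    (e3 : a1 * z + a2 * w = c) (l3 : A * z + B * w ≠ C) : False := by
  by_cases hxy : x = x' ∧ y = y'
  · obtain ⟨rfl, rfl⟩ := hxy
    have f1 : (θ - θ') * (R * (k * x + m * y)) = 0 := by
      linear_combination (-k * R) * (g1 - g2) + y * (hb - hb')
    have f2 := (mul_eq_zero.mp f1).resolve_left (sub_ne_zero.mpr hθ)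
    have f3 := (mul_eq_zero.mp f2).resolve_left hR
    have hy : y = k * R := by
      linear_combination (k * R) * g1 - y * hb + θ * R * f3
    have hx : x = -(m * R) := by
      have : k * (x + m * R) = 0 := by rw [hy] at f3; linarith
      have := (mul_eq_zero.mp this).resolve_left hk
      linarith
    rw [hx, hy] at e1
    exact hX e1
  · exact l3 (two_pts h e1 e2 l1 l2 (by
      by_contra hcon
      push Not at hcon
      exact hxy hcon) e3)

/-- Choice of the slope of the third edge. -/
theorem sel_theta {m k A B C α1 α2 Q η R : ℝ} {θ b : Fin 3 → ℝ} (hk : k ≠ 0)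
    (hθ : Function.Injective θ) (hR : R ≠ 0) (hb : ∀ i, (m * θ i + k * b i) * R = 1)
    (hα : α1 ≠ 0) (hX1 : α1 * (-(m * R)) + α2 * (k * R) ≠ 1)
    (hX2 : 1 * (-(m * R)) + Q * (k * R) ≠ -η)
    (z w : ℝ) (h1 : α1 * z + α2 * w = 1) (h2 : 1 * z + Q * w = -η) (h3 : A * z + B * w ≠ C) :
    ∃ i, ∀ x y, -θ i * x + b i * y = 1 → (α1 * x + α2 * y = 1 ∨ 1 * x + Q * y = -η) →
      A * x + B * y ≠ C := by
  by_contra hcon
  push Not at hcon
  choose x y hg hor hl using hcon
  -- two indices of the same type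
  have key1 : ∀ i j, i ≠ j → α1 * x i + α2 * y i = 1 → α1 * x j + α2 * y j = 1 → False := by
    intro i j hij e1 e2
    exact pair_bad hk (hθ.ne hij) hR (hb i) (hb j) (hg i) (hg j) (Or.inl hα) e1 e2 (hl i) (hl j)
      hX1 h1 h3
  have key2 : ∀ i j, i ≠ j → 1 * x i + Q * y i = -η → 1 * x j + Q * y j = -η → False := by
    intro i j hij e1 e2
    exact pair_bad hk (hθ.ne hij) hR (hb i) (hb j) (hg i) (hg j) (Or.inl one_ne_zero) e1 e2 (hl i)
      (hl j) hX2 h2 h3
  rcases hor 0 with a | a <;> rcases hor 1 with b | b <;> rcases hor 2 with c | c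
  · exact key1 0 1 (by decide) a b
  · exact key1 0 1 (by decide) a b
  · exact key1 0 2 (by decide) a c
  · exact key2 1 2 (by decide) b c
  · exact key1 1 2 (by decide) b c
  · exact key2 0 2 (by decide) a c
  · exact key2 0 1 (by decide) a b
  · exact key2 0 1 (by decide) a b

/-- Choice of `Q`. -/
theorem sel_Q {A B C η : ℝ} {Q : Fin 3 → ℝ} (hQ : Function.Injective Q) (hQ1 : ∀ i, 1 < Q i)
    (hη : 0 < η) (hη1 : η < 1) (hAB : A ≠ 0 ∨ B ≠ 0) :
    ∃ i, ∃ z w, (1 / (1 - η)) * z + (1 / (1 - η / Q i)) * w = 1 ∧ 1 * z + Q i * w = -η ∧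
      A * z + B * w ≠ C := by
  by_contra hcon
  push Not at hcon
  have hroot : ∀ i, B * (η / Q i) ^ 2 + (C - B) * (η / Q i) + (A * (η * (1 - η)) - C * η) = 0 := by
    intro i
    have hQi := hQ1 i
    have hQ0 : 0 < Q i := by linarith
    set r := η / Q i with hr
    have hrQ : r * Q i = η := by rw [hr]; field_simp
    have hr0 : 0 < r := by positivity
    have hrη : r < η := by rw [hr, div_lt_iff₀ hQ0]; nlinarith
    have h1 : 0 < η - r := by linarith
    have h2 : 0 < 1 - η := by linarith
    have h3 : 0 < 1 - r := by linarith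
    have := hcon i (η * (1 - η) / (η - r)) (-(r * (1 - r)) / (η - r)) (by
      rw [← hr]; field_simp; ring) (by
      have h1' := h1.ne'
      field_simp
      linear_combination (-(1 - r)) * hrQ)
    have h1' := h1.ne'
    field_simp at this
    linear_combination this
  have hinj : ∀ i j, i ≠ j → η / Q i ≠ η / Q j := by
    intro i j hij h
    apply hij
    apply hQ
    have h1 := hQ1 i
    have h2 := hQ1 j
    have hi : Q i ≠ 0 := by linarith
    have hj : Q j ≠ 0 := by linarith
    rw [div_eq_div_iff hi hj] at h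
    exact (mul_left_cancel₀ hη.ne' h).symm
  have r0 := hroot 0
  have r1 := hroot 1
  have r2 := hroot 2
  have n01 := sub_ne_zero.mpr (hinj 0 1 (by decide))
  have n12 := sub_ne_zero.mpr (hinj 1 2 (by decide))
  have n02 := sub_ne_zero.mpr (hinj 0 2 (by decide))
  set a := η / Q 0
  set b := η / Q 1
  set c := η / Q 2
  have f1 : B * (a + b) + (C - B) = 0 := by
    have : (a - b) * (B * (a + b) + (C - B)) = 0 := by linear_combination r0 - r1
    exact (mul_eq_zero.mp this).resolve_left n01
  have f2 : B * (b + c) + (C - B) = 0 := by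
    have : (b - c) * (B * (b + c) + (C - B)) = 0 := by linear_combination r1 - r2
    exact (mul_eq_zero.mp this).resolve_left n12
  have hB : B = 0 := by
    have : (a - c) * B = 0 := by linear_combination f1 - f2
    exact (mul_eq_zero.mp this).resolve_left n02
  have hC : C = 0 := by rw [hB] at f1; linarith
  have hA : A = 0 := by
    rw [hB, hC] at r0
    have : (η * (1 - η)) * A = 0 := by linarith
    exact (mul_eq_zero.mp this).resolve_left (mul_pos hη (by linarith)).ne'
  rcases hAB with h | h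
  · exact h hA
  · exact h hB

theorem lemmaF_norm {p u1 u2 u3 : Plane} (hu1 : ‖u1‖ = 1) (hu2 : ‖u2‖ = 1) (hu3 : ‖u3‖ = 1)
    {s t : Plane →ᵃ[ℝ] ℝ} (h : CFrame p u1 u2 s t) {m k : ℝ} (hm : 0 < m) (hk : 0 < k)
    (hkm : k < 1 + m) (h3 : u3 = (-m) • u1 + k • u2) {A B C : ℝ} (hAB : A ≠ 0 ∨ B ≠ 0) :
    ∃ f g, GoodTri p {u1, u2, u3} f g ∧ ∀ v, VertexOf f g v → A * s v + B * t v ≠ C := by
  -- the candidates
  let Q : Fin 3 → ℝ := fun i => (i : ℝ) + 2 + m / k
  let ε := k / (4 * (m + k))
  let θ : Fin 3 → ℝ := fun j => (1 + (j : ℝ) * ε) / m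
  have hε : 0 < ε := by positivity
  have hmk : 0 < m / k := by positivity
  have hQinj : Function.Injective Q := by
    intro i j hij
    have : ((i : ℕ) : ℝ) = ((j : ℕ) : ℝ) := by
      simp only [Q] at hij
      linarith
    exact Fin.ext (by exact_mod_cast this)
  have hθinj : Function.Injective θ := by
    intro i j hij
    have : ((i : ℕ) : ℝ) = ((j : ℕ) : ℝ) := by
      simp only [θ] at hij
      rw [div_left_inj' hm.ne'] at hij
      have : ((i : ℕ) : ℝ) * ε = ((j : ℕ) : ℝ) * ε := by linarith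
      exact mul_right_cancel₀ hε.ne' this
    exact Fin.ext (by exact_mod_cast this)
  have hQ1 : ∀ i, 1 < Q i := by
    intro i
    have : (0 : ℝ) ≤ ((i : ℕ) : ℝ) := Nat.cast_nonneg _
    simp only [Q]; linarith
  have hkQ : ∀ i, m < k * Q i := by
    intro i
    have h0 : (0 : ℝ) ≤ ((i : ℕ) : ℝ) := Nat.cast_nonneg _
    simp only [Q]
    have : k * (((i : ℕ) : ℝ) + 2 + m / k) = k * (((i : ℕ) : ℝ) + 2) + m := by
      field_simp
    rw [this]
    have : 0 < k * (((i : ℕ) : ℝ) + 2) := by positivity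
    linarith
  have hθ0 : ∀ j, 0 < θ j := by
    intro j
    have h0 : (0 : ℝ) ≤ ((j : ℕ) : ℝ) := Nat.cast_nonneg _
    simp only [θ]; positivity
  have hθm : ∀ j, m * θ j = 1 + ((j : ℕ) : ℝ) * ε := by
    intro j
    simp only [θ]; field_simp
  have hθ1 : ∀ j, 1 ≤ m * θ j := by
    intro j
    have h0 : (0 : ℝ) ≤ ((j : ℕ) : ℝ) := Nat.cast_nonneg _
    rw [hθm]
    have := mul_nonneg h0 hε.le
    linarith
  have hθ2 : ∀ j, (m - k) * θ j < 1 := by
    intro j
    have h0 : (0 : ℝ) ≤ ((j : ℕ) : ℝ) := Nat.cast_nonneg _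
    have h2 : ((j : ℕ) : ℝ) ≤ 2 := by
      have : (j : ℕ) ≤ 2 := by omega
      exact_mod_cast this
    rcases le_total m k with hle | hle
    · have := mul_nonneg (sub_nonneg.mpr hle) (hθ0 j).le
      linarith
    · have e1 : ε * (4 * (m + k)) = k := by simp only [ε]; field_simp
      have e2 : ((j : ℕ) : ℝ) * ε ≤ 2 * ε := by nlinarith
      have e3 : m * ((m - k) * θ j) = (m - k) * (1 + ((j : ℕ) : ℝ) * ε) := by
        rw [← hθm]; ring
      have e4 : (m - k) * (1 + ((j : ℕ) : ℝ) * ε) ≤ (m - k) * (1 + 2 * ε) :=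
        mul_le_mul_of_nonneg_left (by linarith) (by linarith)
      have e5 : (m - k) * (1 + 2 * ε) < m := by nlinarith
      have e6 : m * ((m - k) * θ j) < m * 1 := by linarith
      exact lt_of_mul_lt_mul_left e6 hm.le
  obtain ⟨η, hη⟩ : ∃ η, ∀ i j, Ok m k (Q i) (θ j) η := by
    have : ∀ᶠ η in 𝓝[>] (0 : ℝ), ∀ i j, Ok m k (Q i) (θ j) η :=
      eventually_all.mpr fun i => eventually_all.mpr fun j =>
        ok_eventually hm hk hkm (hQ1 i) (hkQ i) (hθ0 j) (hθ1 j) (hθ2 j)
    exact this.exists
  have h00 := hη 0 0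
  obtain ⟨i, z, w, hz1, hz2, hz3⟩ := sel_Q (C := C) hQinj hQ1 h00.c0 h00.c1 hAB
  have hi0 := hη i 0
  have hR0 : 0 < k * Q i - m := by have := hkQ i; linarith
  have hr3 : η / (k * Q i - m) < 1 := by rw [div_lt_one hR0]; exact hi0.c3
  have hr3' : 0 < η / (k * Q i - m) := div_pos hi0.c0 hR0
  have hr3Q : η / (k * Q i - m) * (k * Q i - m) = η := by field_simp
  obtain ⟨j, hj⟩ := sel_theta (m := m) (k := k) (A := A) (B := B) (C := C)
    (α1 := 1 / (1 - η)) (α2 := 1 / (1 - η / Q i)) (Q := Q i) (η := η)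
    (R := 1 - η / (k * Q i - m)) (θ := θ) (b := fun j => bet m k (Q i) (θ j) η) hk.ne' hθinj
    (by linarith) (by
      intro j
      have h1 : 1 - η / (k * Q i - m) ≠ 0 := by linarith
      simp only [bet]
      rw [mul_div_cancel₀ _ hk.ne']
      rw [add_sub_cancel, one_div, inv_mul_cancel₀ h1]) (by
      have := hi0.c1
      exact (div_pos one_pos (by linarith)).ne') (by
      intro hcon
      have := hi0.d7
      linarith) (by
      intro hcon
      have : (1 - η / (k * Q i - m)) * (k * Q i - m) = -η := by linarith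
      have h5 : (1 - η / (k * Q i - m)) * (k * Q i - m) = (k * Q i - m) - η := by
        rw [sub_mul, hr3Q, one_mul]
      linarith) z w hz1 hz2 hz3
  obtain ⟨f, g, hG, hf, hg, hth⟩ := good_of_ok hu1 hu2 hu3 h hk h3 (hQ1 i) (hkQ i) (hθ0 j) (hη i j)
  refine ⟨f, g, hG, ?_⟩
  intro v hv
  rcases hv with ⟨e1, e2⟩ | ⟨e1, e2⟩ | ⟨e1, e2⟩
  · exact hj _ _ (hg v e2) (Or.inl (hf v e1))
  · exact hj _ _ (hg v e1) (Or.inr (hth v e2))
  · -- the vertex of the first and the last edge
    have k1 := hf v e2
    have k2 := hth v e1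
    have hd3 := hi0.d3
    have hx : (1 / (1 - η) * Q i - 1 / (1 - η / Q i)) * (s v - z) = 0 := by
      linear_combination (Q i) * (k1 - hz1) - (1 / (1 - η / Q i)) * (k2 - hz2)
    have hx' := (mul_eq_zero.mp hx).resolve_left hd3.ne'
    have hy : (1 / (1 - η) * Q i - 1 / (1 - η / Q i)) * (t v - w) = 0 := by
      linear_combination (1 / (1 - η)) * (k2 - hz2) - 1 * (k1 - hz1)
    have hy' := (mul_eq_zero.mp hy).resolve_left hd3.ne'
    rw [show s v = z by linarith, show t v = w by linarith]
    exact hz3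

end Pool.MPf9c708
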