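import Pool.Agent.Lib.MP_f9c708_lc.Game

namespace Pool.MPf9c708

open Set

theorem inj_div {c : ℝ} (hc : c ≠ 0) {f : ℕ → ℝ} (hf : Function.Injective f)
    (hf0 : ∀ i, f i ≠ 0) : Function.Injective (fun i => c / f i) := by
  intro i j hij
  apply hf
  have h1 := hf0 i
  have h2 := hf0 j
  simp only at hij
  rw [div_eq_div_iff h1 h2] at hij
  exact (mul_left_cancel₀ hc hij).symm

theorem corner_cuts {k : ℕ} {p : Plane} {P : Set Plane} {a b : Plane →ᵃ[ℝ] ℝ} {δ : ℝ}
    (hC : Corner k p P a b δ) (o : Option Line)
    (ho : ∀ l, o = some l → (l.carrier ∩ interior P).Nonempty) :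
    ∃ α β : ℕ → ℝ, (∀ i, 0 < α i ∧ α i < δ ∧ 0 < β i ∧ β i < δ) ∧
      Function.Injective α ∧ Function.Injective β ∧
      ∀ l, o = some l → ∀ i, (∀ x, a x = α i → b x = 0 → x ∉ l.carrier) ∧
        (∀ x, a x = 0 → b x = β i → x ∉ l.carrier) ∧
        l.carrier ∩ cutSet P a b (α i) (β i) = l.carrier ∩ cutSet P a b (α 0) (β 0) := by
  have hδ := hC.pos
  have hinj : ∀ c : ℝ, 0 < c → Function.Injective (fun i : ℕ => c / ((i : ℝ) + 2)) := by
    intro c hc
    apply inj_div hc.ne'
    · intro i j hij
      simp only [add_left_inj] at hij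
      exact_mod_cast hij
    · intro i
      positivity
  have hrange : ∀ c : ℝ, 0 < c → ∀ i : ℕ, 0 < c / ((i : ℝ) + 2) ∧ c / ((i : ℝ) + 2) < c := by
    intro c hc i
    refine ⟨by positivity, ?_⟩
    rw [div_lt_iff₀ (by positivity)]
    have : (0 : ℝ) ≤ i := Nat.cast_nonneg i
    nlinarith
  cases o with
  | none =>
    refine ⟨fun i => δ / ((i : ℝ) + 2), fun i => δ / ((i : ℝ) + 2), ?_, hinj δ hδ, hinj δ hδ,
      fun l hl => absurd hl (by simp)⟩
    intro i
    exact ⟨(hrange δ hδ i).1, (hrange δ hδ i).2, (hrange δ hδ i).1, (hrange δ hδ i).2⟩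
  | some l =>
    obtain ⟨x0, hx0l, hx0P⟩ := ho l rfl
    have hax0 : 0 < a x0 := pos_of_mem_interior hC.frame.nonconst
      (fun x hx => (hC.nonneg x hx).1) hx0P
    have hbx0 : 0 < b x0 := pos_of_mem_interior hC.frame.swap.nonconst
      (fun x hx => (hC.nonneg x hx).2) hx0P
    obtain ⟨V, hVa, hVb⟩ := hC.frame.surj 0 0
    by_cases hV : V ∈ l.carrier
    · obtain ⟨A, B, C, hAB, heq⟩ := line_eq hC.frame l
      have hC0 : C = 0 := by
        rw [heq, hVa, hVb] at hV
        linarith
      subst hC0
      rw [heq] at hx0l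
      have hB : B ≠ 0 := by
        intro h0
        rw [h0] at hx0l hAB
        have : A * a x0 = 0 := by linarith
        rcases mul_eq_zero.mp this with h | h
        · exact hAB.elim (fun h' => h' h) (fun h' => h' rfl)
        · exact hax0.ne' h
      have hA : A ≠ 0 := by
        intro h0
        rw [h0] at hx0l
        have : B * b x0 = 0 := by linarith
        rcases mul_eq_zero.mp this with h | h
        · exact hB h
        · exact hbx0.ne' h
      set μ := b x0 / a x0 with hμ
      have hμ0 : 0 < μ := by positivity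
      have hAμ : A = -B * μ := by
        rw [hμ]; field_simp; linarith
      have hline : ∀ x, x ∈ l.carrier → b x = μ * a x := by
        intro x hx
        rw [heq, hAμ] at hx
        have : B * (b x - μ * a x) = 0 := by linarith
        rcases mul_eq_zero.mp this with h | h
        · exact absurd h hB
        · linarith
      set s := δ / (4 * (1 + μ)) with hs
      have hs0 : 0 < s := by positivity
      set κ : ℕ → ℝ := fun i => 1 / 2 + 1 / ((i : ℝ) + 7) with hκ
      have hκ1 : ∀ i, 1 / 2 < κ i := by
        intro i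
        have : (0 : ℝ) < 1 / ((i : ℝ) + 7) := by positivity
        simp only [hκ]; linarith
      have hκ2 : ∀ i, κ i < 2 / 3 := by
        intro i
        have h7 : (7 : ℝ) ≤ (i : ℝ) + 7 := by
          have : (0 : ℝ) ≤ i := Nat.cast_nonneg i
          linarith
        have : 1 / ((i : ℝ) + 7) ≤ 1 / 7 := one_div_le_one_div_of_le (by norm_num) h7
        simp only [hκ]; linarith
      have hκinj : Function.Injective κ := by
        intro i j hij
        simp only [hκ] at hij
        have h1 : 1 / ((i : ℝ) + 7) = 1 / ((j : ℝ) + 7) := by linarith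
        have h2 : (0 : ℝ) < (i : ℝ) + 7 := by positivity
        have h3 : (0 : ℝ) < (j : ℝ) + 7 := by positivity
        rw [div_eq_div_iff h2.ne' h3.ne'] at h1
        have : (i : ℝ) = j := by linarith
        exact_mod_cast this
      have hs1 : 3 * s < δ ∧ 3 * (μ * s) < δ := by
        have h1 : s * (4 * (1 + μ)) = δ := by rw [hs]; field_simp
        constructor <;> nlinarith [mul_pos hs0 hμ0]
      refine ⟨fun i => s / κ i, fun i => (μ * s) / (1 - κ i), ?_, ?_, ?_, ?_⟩
      · intro i
        have h1 := hκ1 i
        have h2 := hκ2 i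
        refine ⟨div_pos hs0 (by linarith), ?_, div_pos (by positivity) (by linarith), ?_⟩
        · rw [div_lt_iff₀ (by linarith)]
          nlinarith [hs1.1]
        · rw [div_lt_iff₀ (by linarith)]
          nlinarith [hs1.2]
      · exact inj_div hs0.ne' hκinj (fun i => by have := hκ1 i; linarith)
      · apply inj_div (by positivity)
        · intro i j hij
          apply hκinj
          simp only at hij
          linarith
        · intro i
          have := hκ2 i
          linarith
      · intro l' hl' i
        have hll : l = l' := by simpa using hl'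
        subst hll
        refine ⟨?_, ?_, ?_⟩
        · intro x hx1 hx2 hxl
          have := hline x hxl
          rw [hx1, hx2] at this
          have h1 : 0 < s / κ i := div_pos hs0 (by have := hκ1 i; linarith)
          have h2 : 0 < μ * (s / κ i) := by positivity
          linarith
        · intro x hx1 hx2 hxl
          have := hline x hxl
          rw [hx1, hx2] at this
          have h1 : 0 < (μ * s) / (1 - κ i) := div_pos (by positivity) (by have := hκ2 i; linarith)
          linarith
        · have hkey : ∀ i, l.carrier ∩ cutSet P a b (s / κ i) ((μ * s) / (1 - κ i))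
              = l.carrier ∩ {x | x ∈ P ∧ s ≤ a x} := by
            intro i
            have h1 := hκ1 i
            have h2 := hκ2 i
            ext x
            constructor
            · rintro ⟨hxl, hxP, hf⟩
              refine ⟨hxl, hxP, ?_⟩
              rw [cutFun_apply, hline x hxl] at hf
              have h3 : a x / (s / κ i) + μ * a x / (μ * s / (1 - κ i)) = a x / s := by
                have : (1 - κ i) ≠ 0 := by linarith
                have : κ i ≠ 0 := by linarith
                field_simp
                ring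
              rw [h3] at hf
              have : 1 ≤ a x / s := by linarith
              rwa [le_div_iff₀ hs0, one_mul] at this
            · rintro ⟨hxl, hxP, hf⟩
              refine ⟨hxl, hxP, ?_⟩
              rw [cutFun_apply, hline x hxl]
              have h3 : a x / (s / κ i) + μ * a x / (μ * s / (1 - κ i)) = a x / s := by
                have : (1 - κ i) ≠ 0 := by linarith
                have : κ i ≠ 0 := by linarith
                field_simp
                ring
              rw [h3]
              have : 1 ≤ a x / s := by rwa [le_div_iff₀ hs0, one_mul]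
              linarith
          rw [hkey i, hkey 0]
    · obtain ⟨e, he, hle⟩ := line_avoid hC.frame l hVa hVb hV
      set e' := min δ e with he'
      have he0 : 0 < e' := lt_min hδ he
      have heδ : e' ≤ δ := min_le_left _ _
      have hee : e' ≤ e := min_le_right _ _
      refine ⟨fun i => e' / ((i : ℝ) + 2), fun i => e' / ((i : ℝ) + 2), ?_, hinj e' he0,
        hinj e' he0, ?_⟩
      · intro i
        have := hrange e' he0 i
        exact ⟨this.1, by linarith [this.2], this.1, by linarith [this.2]⟩
      · intro l' hl' i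
        have hll : l = l' := by simpa using hl'
        subst hll
        refine ⟨?_, ?_, ?_⟩
        · intro x hx1 hx2 hxl
          have h3 := hrange e' he0 i
          exact hle x hxl (by rw [hx1]; exact h3.1.le) (by rw [hx2])
            ⟨by rw [hx1]; linarith [h3.2], by rw [hx2]; exact he⟩
        · intro x hx1 hx2 hxl
          have h3 := hrange e' he0 i
          exact hle x hxl (by rw [hx1]) (by rw [hx2]; exact h3.1.le)
            ⟨by rw [hx1]; exact he, by rw [hx2]; linarith [h3.2]⟩
        · have hkey : ∀ i : ℕ, l.carrier ∩ cutSet P a b (e' / ((i : ℝ) + 2)) (e' / ((i : ℝ) + 2))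
              = l.carrier ∩ P := by
            intro i
            have h3 := hrange e' he0 i
            apply Set.Subset.antisymm
            · exact Set.inter_subset_inter_right _ (cutSet_subset _ _ _ _ _)
            · rintro x ⟨hxl, hxP⟩
              refine ⟨hxl, hxP, ?_⟩
              by_contra hneg
              push Not at hneg
              rw [cutFun_apply] at hneg
              have hx0 := hC.nonneg x hxP
              have h4 : 0 ≤ a x / (e' / ((i : ℝ) + 2)) := div_nonneg hx0.1 h3.1.le
              have h5 : 0 ≤ b x / (e' / ((i : ℝ) + 2)) := div_nonneg hx0.2 h3.1.le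
              have h6 : a x / (e' / ((i : ℝ) + 2)) < 1 := by linarith
              have h7 : b x / (e' / ((i : ℝ) + 2)) < 1 := by linarith
              rw [div_lt_one h3.1] at h6 h7
              exact hle x hxl hx0.1 hx0.2 ⟨by linarith [h3.2], by linarith [h3.2]⟩
          rw [hkey i, hkey 0]

/-- A line meeting the interior of the quadrant misses most of the points on the axes. -/
theorem axis_fin {a b : Plane →ᵃ[ℝ] ℝ} (hab : Frame a b) {α β : ℕ → ℝ}
    (hα : Function.Injective α) (hβ : Function.Injective β) (l : Line)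
    {x0 : Plane} (hx0 : x0 ∈ l.carrier) (hax0 : 0 < a x0) (hbx0 : 0 < b x0) :
    ∃ i, (∀ x, a x = α i → b x = 0 → x ∉ l.carrier) ∧
      (∀ x, a x = 0 → b x = β i → x ∉ l.carrier) := by
  obtain ⟨A, B, C, hAB, heq⟩ := line_eq hab l
  have h1 : ∀ i j, A * α i = C → A * α j = C → i = j := by
    intro i j hi hj
    by_cases hA : A = 0
    · exfalso
      rw [hA] at hi
      rw [heq, hA] at hx0
      have hB : B ≠ 0 := hAB.resolve_left (fun h => h hA)
      have : B * b x0 = 0 := by linarith
      exact (mul_ne_zero hB hbx0.ne') this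
    · apply hα
      have : A * α i = A * α j := by rw [hi, hj]
      exact mul_left_cancel₀ hA this
  have h2 : ∀ i j, B * β i = C → B * β j = C → i = j := by
    intro i j hi hj
    by_cases hB : B = 0
    · exfalso
      rw [hB] at hi
      rw [heq, hB] at hx0
      have hA : A ≠ 0 := hAB.resolve_right (fun h => h hB)
      have : A * a x0 = 0 := by linarith
      exact (mul_ne_zero hA hax0.ne') this
    · apply hβ
      have : B * β i = B * β j := by rw [hi, hj]
      exact mul_left_cancel₀ hB this
  -- among 0, 1, 2 there is a good index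
  have h3 : ∃ i : ℕ, A * α i ≠ C ∧ B * β i ≠ C := by
    by_contra hcon
    push Not at hcon
    by_cases e0 : A * α 0 = C
    · have e1 : A * α 1 ≠ C := fun h => absurd (h1 0 1 e0 h) (by norm_num)
      have e2 : A * α 2 ≠ C := fun h => absurd (h1 0 2 e0 h) (by norm_num)
      exact absurd (h2 1 2 (hcon 1 e1) (hcon 2 e2)) (by norm_num)
    · have f0 := hcon 0 e0
      by_cases e1 : A * α 1 = C
      · have e2 : A * α 2 ≠ C := fun h => absurd (h1 1 2 e1 h) (by norm_num)
        exact absurd (h2 0 2 f0 (hcon 2 e2)) (by norm_num)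
      · exact absurd (h2 0 1 f0 (hcon 1 e1)) (by norm_num)
  obtain ⟨i, hi1, hi2⟩ := h3
  refine ⟨i, ?_, ?_⟩
  · intro x hx1 hx2 hxl
    rw [heq, hx1, hx2] at hxl
    exact hi1 (by linarith)
  · intro x hx1 hx2 hxl
    rw [heq, hx1, hx2] at hxl
    exact hi2 (by linarith)

/-- A line through both new corners lies in the cutting line. -/
theorem axis_sep {a b : Plane →ᵃ[ℝ] ℝ} (hab : Frame a b) {α β : ℝ} (hα : 0 < α) (hβ : 0 < β)
    (l : Line) {w w' : Plane} (hwa : a w = α) (hwb : b w = 0) (hwa' : a w' = 0) (hwb' : b w' = β)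
    (hw : w ∈ l.carrier) (hw' : w' ∈ l.carrier) : ∀ x ∈ l.carrier, cutFun a b α β x = 0 := by
  obtain ⟨A, B, C, hAB, heq⟩ := line_eq hab l
  intro x hx
  rw [heq] at hw hw' hx
  rw [hwa, hwb] at hw
  rw [hwa', hwb'] at hw'
  have hA : A = C / α := by field_simp; linarith
  have hB : B = C / β := by field_simp; linarith
  have hC : C ≠ 0 := by
    intro h0
    rw [h0] at hA hB
    simp at hA hB
    exact hAB.elim (fun h => h hA) (fun h => h hB)
  rw [cutFun_apply]
  rw [hA, hB] at hx
  have : C * (a x / α + b x / β - 1) = 0 := by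
    have h1 : C / α * a x = C * (a x / α) := by ring
    have h2 : C / β * b x = C * (b x / β) := by ring
    rw [h1, h2] at hx
    linarith
  exact (mul_eq_zero.mp this).resolve_left hC

theorem main_lower {n : ℕ} {p : Plane} {σ : Strategy} (hval : Valid n p σ) :
    ∀ H, 1 ≤ H → ∀ K P v j h0, K + H = n →
      Good K p P v (fun P'' => IsConvexPolygon n P'' → answers σ P'' j = h0) →
      ∃ P1 P2, Candidate n p P1 ∧ Candidate n p P2 ∧ P1 ≠ P2 ∧
        answers σ P1 (j + (3 * H - 2)) = answers σ P2 (j + (3 * H - 2)) := by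
  intro H
  induction H with
  | zero => intro h; omega
  | succ H ih =>
    intro _ K P v j h0 hKn hG
    obtain ⟨Q, hQn, hQp, hQsub, hQF⟩ := hG.exists_poly (H + 1)
    rw [hKn] at hQn
    obtain ⟨a, b, δ, hC, hva, hvb, hF⟩ := hG
    have hmeet : ∀ l, σ h0 = some l → (l.carrier ∩ interior P).Nonempty := by
      intro l hl
      have := hval Q ⟨hQn, hQp⟩ j l (by rw [hQF hQn]; exact hl)
      exact this.mono (Set.inter_subset_inter_right _ (interior_mono hQsub))
    obtain ⟨α, β, hαβ, hαi, hβi, hcut⟩ := corner_cuts hC (σ h0) hmeet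
    have hcutfam : ∀ i, Fam P a b δ (cutSet P a b (α i) (β i)) := by
      intro i
      obtain ⟨h1, h2, h3, h4⟩ := hαβ i
      obtain ⟨δ', hC', hF'⟩ := cut_corner hC h1 h2 h3 h4
      exact hF' _ (Fam.refl _ _ _ _)
    rcases Nat.eq_zero_or_pos H with hH0 | hHpos
    · -- one hidden edge, one probe
      subst hH0
      have hcand : ∀ i, Candidate n p (cutSet P a b (α i) (β i)) := by
        intro i
        obtain ⟨h1, h2, h3, h4⟩ := hαβ i
        refine ⟨?_, hC.inn_fam (hcutfam i)⟩
        rw [← hKn]
        exact cut_poly hC h1 h2 h3 h4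
      refine ⟨cutSet P a b (α 0) (β 0), cutSet P a b (α 1) (β 1), hcand 0, hcand 1, ?_, ?_⟩
      · intro hEq
        -- compare on the axis
        have hne : α 0 ≠ α 1 := fun h => absurd (hαi h) (by norm_num)
        have hmem : ∀ i x, a x = α i → b x = 0 → x ∈ cutSet P a b (α i) (β i) := by
          intro i x hx1 hx2
          obtain ⟨h1, h2, h3, h4⟩ := hαβ i
          refine ⟨hC.full x (by rw [hx1]; exact h1.le) (by rw [hx2])
            (by rw [hx1]; exact h2.le) (by rw [hx2]; exact hC.pos.le), ?_⟩
          rw [cutFun_apply, hx1, hx2, div_self h1.ne']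
          simp
        have hle : ∀ i k, cutSet P a b (α i) (β i) = cutSet P a b (α k) (β k) → α k ≤ α i := by
          intro i k hik
          obtain ⟨x, hx1, hx2⟩ := hC.frame.surj (α i) 0
          have h5 := hmem i x hx1 hx2
          rw [hik] at h5
          have h6 := h5.2
          rw [cutFun_apply, hx1, hx2, zero_div, add_zero] at h6
          have h7 : 1 ≤ α i / α k := by linarith
          rwa [le_div_iff₀ (hαβ k).1, one_mul] at h7
        exact hne (le_antisymm (hle 1 0 hEq.symm) (hle 0 1 hEq))
      · rw [show j + (3 * (0 + 1) - 2) = j + 1 by omega, answers_succ, answers_succ,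
          hF _ (hcutfam 0) (hcand 0).1, hF _ (hcutfam 1) (hcand 1).1]
        apply step_congr
        intro l hl
        rw [(hcut l hl 1).2.2]
    · -- three probes
      choose w hwa hwb using fun i : ℕ => hC.frame.surj (α i) 0
      choose w' hwa' hwb' using fun i : ℕ => hC.frame.surj 0 (β i)
      have hintpos : ∀ i x, x ∈ interior (cutSet P a b (α i) (β i)) → 0 < a x ∧ 0 < b x := by
        intro i x hx
        have hx' := interior_mono (cutSet_subset P a b (α i) (β i)) hx
        exact ⟨pos_of_mem_interior hC.frame.nonconst (fun x hx => (hC.nonneg x hx).1) hx',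
          pos_of_mem_interior hC.frame.swap.nonconst (fun x hx => (hC.nonneg x hx).2) hx'⟩
      have g1 : ∀ i, Good (K + 1) p (cutSet P a b (α i) (β i)) (w i)
          (fun P'' => IsConvexPolygon n P'' → answers σ P'' j = h0) := by
        intro i
        obtain ⟨h1, h2, h3, h4⟩ := hαβ i
        obtain ⟨δ', hC', hF'⟩ := cut_corner hC h1 h2 h3 h4
        refine ⟨_, _, δ', hC', ?_, hwb i, fun P'' hP'' => hF P'' (hF' P'' hP'')⟩
        rw [cutFun_apply, hwa, hwb, div_self h1.ne']
        simp
      have g2 : ∀ i, Good (K + 1) p (cutSet P a b (α i) (β i)) (w' i)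
          (fun P'' => IsConvexPolygon n P'' → answers σ P'' j = h0) := by
        intro i
        obtain ⟨h1, h2, h3, h4⟩ := hαβ i
        obtain ⟨δ', hC', hF'⟩ := cut_corner hC.swap h3 h4 h1 h2
        rw [cutSet_swap] at hC' hF'
        refine ⟨_, _, δ', hC', ?_, hwa' i, fun P'' hP'' => hF P'' (hF' P'' hP'').swap⟩
        rw [cutFun_apply, hwa', hwb', div_self h3.ne']
        simp
      have g3 : ∀ l, σ h0 = some l → ∀ i, w i ∉ l.carrier ∧ w' i ∉ l.carrier ∧
          l.carrier ∩ cutSet P a b (α i) (β i) = l.carrier ∩ cutSet P a b (α 0) (β 0) := by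
        intro l hl i
        obtain ⟨h5, h6, h7⟩ := hcut l hl i
        exact ⟨h5 _ (hwa i) (hwb i), h6 _ (hwa' i) (hwb' i), h7⟩
      have g4 : ∀ i (l : Line), (l.carrier ∩ interior (cutSet P a b (α i) (β i))).Nonempty →
          ¬ (w i ∈ l.carrier ∧ w' i ∈ l.carrier) := by
        rintro i l ⟨x, hxl, hxi⟩ ⟨hw1, hw2⟩
        have h5 := axis_sep hC.frame (hαβ i).1 (hαβ i).2.2.1 l (hwa i) (hwb i) (hwa' i) (hwb' i)
          hw1 hw2 x hxl
        have h6 : 0 < cutFun a b (α i) (β i) x := by
          refine pos_of_mem_interior ?_ (fun x hx => hx.2) hxi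
          obtain ⟨y, hya, hyb⟩ := hC.frame.surj 0 0
          refine ⟨w i, y, ?_⟩
          rw [cutFun_apply, cutFun_apply, hya, hyb, hwa, hwb, div_self (hαβ i).1.ne']
          simp
        linarith
      have g5 : ∀ l : Line, (∀ i, (l.carrier ∩ interior (cutSet P a b (α i) (β i))).Nonempty) →
          ∃ i, w i ∉ l.carrier ∧ w' i ∉ l.carrier := by
        intro l hl
        obtain ⟨x, hxl, hxi⟩ := hl 0
        obtain ⟨h5, h6⟩ := hintpos 0 x hxi
        obtain ⟨i, h7, h8⟩ := axis_fin hC.frame hαi hβi l hxl h5 h6
        exact ⟨i, h7 _ (hwa i) (hwb i), h8 _ (hwa' i) (hwb' i)⟩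
      obtain ⟨i, v', h3, hG3⟩ := fan_three (n := n) (K := K + 1) (H := H) (j := j) (p := p)
        (σ := σ) (h0 := h0) (by omega) hval (fun i => cutSet P a b (α i) (β i)) w w' g1 g2 g3
        g4 g5
      obtain ⟨P1, P2, hP1, hP2, hne, heq⟩ := ih hHpos (K + 1) _ v' (j + 3) h3 (by omega) hG3
      refine ⟨P1, P2, hP1, hP2, hne, ?_⟩
      rwa [show j + 3 + (3 * H - 2) = j + (3 * (H + 1) - 2) by omega] at heq

end Pool.MPf9c708
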