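import Pool.Agent.Lib.MP_f9c708_lc.Main

namespace Pool.MPf9c708

open Set

/-- The third barycentric coordinate. -/
noncomputable def third (f g : Plane →ᵃ[ℝ] ℝ) : Plane →ᵃ[ℝ] ℝ :=
  AffineMap.const ℝ Plane 1 - f - g

theorem third_apply (f g : Plane →ᵃ[ℝ] ℝ) (x : Plane) : third f g x = 1 - f x - g x := by
  simp [third]

/-- The triangle with barycentric coordinates `f, g, 1 - f - g`. -/
def Tri (f g : Plane →ᵃ[ℝ] ℝ) : Set Plane := {x | 0 ≤ f x ∧ 0 ≤ g x ∧ 0 ≤ third f g x}

theorem frame_third {f g : Plane →ᵃ[ℝ] ℝ} (h : Frame f g) : Frame g (third f g) := by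
  constructor
  · intro x y h1 h2
    rw [third_apply, third_apply] at h2
    exact h.inj x y (by linarith) h1
  · intro s t
    obtain ⟨x, h1, h2⟩ := h.surj (1 - s - t) s
    exact ⟨x, h2, by rw [third_apply, h1, h2]; ring⟩

theorem tri_third (f g : Plane →ᵃ[ℝ] ℝ) : Tri g (third f g) = Tri f g := by
  ext x
  have h : third g (third f g) x = f x := by
    rw [third_apply, third_apply]; ring
  constructor
  · rintro ⟨h1, h2, h3⟩
    rw [h] at h3
    exact ⟨h3, h1, h2⟩
  · rintro ⟨h1, h2, h3⟩
    refine ⟨h2, h3, ?_⟩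
    rw [h]; exact h1

theorem third_third (f g : Plane →ᵃ[ℝ] ℝ) : third g (third f g) = f := by
  ext x
  rw [third_apply, third_apply]; ring

theorem tri_corner {p : Plane} {f g : Plane →ᵃ[ℝ] ℝ} (hfg : Frame f g)
    (h1 : 0 < f p) (h2 : 0 < g p) (h3 : 0 < third f g p) : ∃ δ, Corner 3 p (Tri f g) f g δ := by
  have hconv : Convex ℝ (Tri f g) := by
    rintro x ⟨hx1, hx2, hx3⟩ y ⟨hy1, hy2, hy3⟩ s t hs ht hst
    refine ⟨?_, ?_, ?_⟩
    · rw [Convex.combo_affine_apply hst]
      simp only [smul_eq_mul]; positivity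
    · rw [Convex.combo_affine_apply hst]
      simp only [smul_eq_mul]; positivity
    · rw [Convex.combo_affine_apply hst]
      simp only [smul_eq_mul]; positivity
  obtain ⟨v0, hv0f, hv0g⟩ := hfg.surj 0 0
  obtain ⟨v1, hv1f, hv1g⟩ := hfg.surj 1 0
  obtain ⟨v2, hv2f, hv2g⟩ := hfg.surj 0 1
  have hne01 : v0 ≠ v1 := fun h => by rw [h, hv1f] at hv0f; norm_num at hv0f
  have hne02 : v0 ≠ v2 := fun h => by rw [h, hv2g] at hv0g; norm_num at hv0g
  have hne12 : v1 ≠ v2 := fun h => by rw [h, hv2f] at hv1f; norm_num at hv1f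
  set S : Set Plane := {v0, v1, v2} with hS
  have hS0 : v0 ∈ S := by simp [hS]
  have hS1 : v1 ∈ S := by simp [hS]
  have hS2 : v2 ∈ S := by simp [hS]
  have hpoly : IsConvexPolygon 3 (Tri f g) := by
    refine ⟨S, by simp [hS], ?_, ?_, ?_⟩
    · rw [hS, Set.ncard_eq_three]
      exact ⟨v0, v1, v2, hne01, hne02, hne12, rfl⟩
    · rw [convexIndependent_set_iff_notMem_convexHull_sdiff]
      have key : ∀ (φ : Plane →ᵃ[ℝ] ℝ) (v : Plane), φ v = 1 → (∀ x ∈ S, x ≠ v → φ x ≤ 0) →
          v ∉ convexHull ℝ (S \ {v}) := by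
        intro φ v hv hall hmem
        have hsub : convexHull ℝ (S \ {v}) ⊆ {x | φ x ≤ 0} := by
          apply convexHull_min
          · rintro x ⟨hx, hxv⟩
            exact hall x hx (by simpa using hxv)
          · intro x hx y hy s t hs ht hst
            have hx' : φ x ≤ 0 := hx
            have hy' : φ y ≤ 0 := hy
            show φ (s • x + t • y) ≤ 0
            rw [Convex.combo_affine_apply hst]
            simp only [smul_eq_mul]
            nlinarith [mul_nonneg hs (neg_nonneg.mpr hx'), mul_nonneg ht (neg_nonneg.mpr hy')]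
        have h4 : φ v ≤ 0 := hsub hmem
        linarith
      rintro v (rfl | rfl | rfl)
      · apply key (third f g)
        · rw [third_apply, hv0f, hv0g]; norm_num
        · rintro x (rfl | rfl | rfl) hx
          · exact absurd rfl hx
          · rw [third_apply, hv1f, hv1g]; norm_num
          · rw [third_apply, hv2f, hv2g]; norm_num
      · apply key f _ hv1f
        rintro x (rfl | rfl | rfl) hx
        · rw [hv0f]
        · exact absurd rfl hx
        · rw [hv2f]
      · apply key g _ hv2g
        rintro x (rfl | rfl | rfl) hx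
        · rw [hv0g]
        · rw [hv1g]
        · exact absurd rfl hx
    · apply Set.Subset.antisymm
      · rintro x ⟨hx1, hx2, hx3⟩
        have hxeq : x = (third f g x) • v0 + (f x) • v1 + (g x) • v2 := by
          have e : ∀ φ : Plane →ᵃ[ℝ] ℝ, φ ((third f g x) • v0 + (f x) • v1 + (g x) • v2)
              = (third f g x) * φ v0 + (f x) * φ v1 + (g x) * φ v2 := by
            intro φ
            have hdec : ∀ y, φ y = φ.linear y + φ 0 := fun y => by
              have := φ.map_vadd 0 y
              simpa using this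
            rw [hdec, hdec v0, hdec v1, hdec v2]
            simp only [map_add, map_smul, smul_eq_mul]
            rw [third_apply]
            ring
          apply hfg.inj
          · rw [e f, hv0f, hv1f, hv2f]; ring
          · rw [e g, hv0g, hv1g, hv2g]; ring
        have hmem := (convex_convexHull ℝ S).sum_mem (t := Finset.univ)
          (w := ![third f g x, f x, g x]) (z := ![v0, v1, v2]) (by
            intro i _
            fin_cases i
            · exact hx3
            · exact hx1
            · exact hx2) (by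
            rw [Fin.sum_univ_three]
            simp [third_apply]
            ring) (by
            intro i _
            fin_cases i
            · exact subset_convexHull ℝ S hS0
            · exact subset_convexHull ℝ S hS1
            · exact subset_convexHull ℝ S hS2)
        rw [Fin.sum_univ_three] at hmem
        rw [hxeq]
        exact hmem
      · apply convexHull_min _ hconv
        rintro x (rfl | rfl | rfl)
        · refine ⟨hv0f.ge, hv0g.ge, ?_⟩
          rw [third_apply, hv0f, hv0g]; norm_num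
        · refine ⟨by rw [hv1f]; norm_num, hv1g.ge, ?_⟩
          rw [third_apply, hv1f, hv1g]; norm_num
        · refine ⟨hv2f.ge, by rw [hv2g]; norm_num, ?_⟩
          rw [third_apply, hv2f, hv2g]; norm_num
  refine ⟨min (1 / 2) (f p / 2), hpoly, hfg, lt_min (by norm_num) (by linarith), ?_, ?_, ?_, ?_⟩
  · rintro x ⟨hx1, hx2, _⟩
    exact ⟨hx1, hx2⟩
  · intro x hx1 hx2 hx3 hx4
    have h5 : min (1 / 2 : ℝ) (f p / 2) ≤ 1 / 2 := min_le_left _ _
    refine ⟨hx1, hx2, ?_⟩
    rw [third_apply]; linarith
  · rw [mem_interior]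
    refine ⟨{x | 0 < f x} ∩ ({x | 0 < g x} ∩ {x | 0 < third f g x}), ?_, ?_, ⟨h1, h2, h3⟩⟩
    · rintro x ⟨hx1, hx2, hx3⟩
      exact ⟨le_of_lt hx1, le_of_lt hx2, le_of_lt hx3⟩
    · exact (isOpen_lt continuous_const (continuous_aff f)).inter
        ((isOpen_lt continuous_const (continuous_aff g)).inter
          (isOpen_lt continuous_const (continuous_aff _)))
  · left
    have h5 : min (1 / 2 : ℝ) (f p / 2) ≤ f p / 2 := min_le_right _ _
    linarith

/-- The interior of a triangle. -/
theorem tri_interior {f g : Plane →ᵃ[ℝ] ℝ} (hfg : Frame f g) {x : Plane}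
    (hx : x ∈ interior (Tri f g)) : 0 < f x ∧ 0 < g x ∧ 0 < third f g x :=
  ⟨pos_of_mem_interior hfg.nonconst (fun _ h => h.1) hx,
    pos_of_mem_interior hfg.swap.nonconst (fun _ h => h.2.1) hx,
    pos_of_mem_interior (frame_third hfg).swap.nonconst (fun _ h => h.2.2) hx⟩

/-- A line through two vertices misses the interior. -/
theorem two_vertices {f g : Plane →ᵃ[ℝ] ℝ} (hfg : Frame f g) {l : Line}
    (hmeet : (l.carrier ∩ interior (Tri f g)).Nonempty) {v w : Plane}
    (hvf : f v = 0) (hvg : g v = 0) (hwf : f w = 0) (hwg : g w ≠ 0) :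
    ¬ (v ∈ l.carrier ∧ w ∈ l.carrier) := by
  rintro ⟨hv, hw⟩
  obtain ⟨x, hxl, hxi⟩ := hmeet
  obtain ⟨A, B, C, hAB, heq⟩ := line_eq hfg l
  have h1 := (tri_interior hfg hxi).1
  rw [heq] at hv hw hxl
  rw [hvf, hvg] at hv
  rw [hwf] at hw
  have hC : C = 0 := by linarith
  subst hC
  have hB : B = 0 := by
    have : B * g w = 0 := by linarith
    exact (mul_eq_zero.mp this).resolve_right hwg
  have hA : A ≠ 0 := hAB.resolve_right (fun h => h hB)
  rw [hB] at hxl
  have : A * f x = 0 := by linarith
  exact (mul_ne_zero hA h1.ne') this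

/-- Some vertex of a triangle is not met by the next two probes, if the first `q` probes missed
all of them. -/
theorem tri_start {n H q : ℕ} {p : Plane} {σ : Strategy} (hn : 3 + H = n) (hval : Valid n p σ)
    {f g : Plane →ᵃ[ℝ] ℝ} (hfg : Frame f g)
    (h1 : 0 < f p) (h2 : 0 < g p) (h3 : 0 < third f g p)
    (hoff : ∀ j < q, ∀ l, σ (answers σ (Tri f g) j) = some l →
      ∀ v, (f v = 0 ∧ g v = 0 ∨ g v = 0 ∧ third f g v = 0 ∨ third f g v = 0 ∧ f v = 0) →
        v ∉ l.carrier) :
    ∃ v, Good 3 p (Tri f g) v (fun P'' => IsConvexPolygon n P'' →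
      answers σ P'' (q + 2) = answers σ (Tri f g) (q + 2)) := by
  subst hn
  set T := Tri f g with hT
  -- the three vertices
  obtain ⟨va, hva1, hva2⟩ := hfg.surj 0 0
  obtain ⟨vb, hvb1, hvb2⟩ := (frame_third hfg).surj 0 0
  obtain ⟨vc, hvc1, hvc2⟩ := (frame_third (frame_third hfg)).surj 0 0
  rw [third_third] at hvc2
  have ga : Good 3 p T va (fun P'' => IsConvexPolygon (3 + H) P'' →
      answers σ P'' 0 = answers σ T 0) := by
    obtain ⟨δ, hδ⟩ := tri_corner hfg h1 h2 h3
    exact ⟨f, g, δ, hδ, hva1, hva2, fun _ _ _ => rfl⟩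
  have gb : Good 3 p T vb (fun P'' => IsConvexPolygon (3 + H) P'' →
      answers σ P'' 0 = answers σ T 0) := by
    obtain ⟨δ, hδ⟩ := tri_corner (frame_third hfg) h2 h3 (by rw [third_third]; exact h1)
    rw [tri_third] at hδ
    exact ⟨g, third f g, δ, hδ, hvb1, hvb2, fun _ _ _ => rfl⟩
  have gc : Good 3 p T vc (fun P'' => IsConvexPolygon (3 + H) P'' →
      answers σ P'' 0 = answers σ T 0) := by
    obtain ⟨δ, hδ⟩ := tri_corner (frame_third (frame_third hfg)) h3
      (by rw [third_third]; exact h1) (by rw [third_third]; exact h2)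
    rw [tri_third, tri_third] at hδ
    rw [third_third] at hδ
    exact ⟨third f g, f, δ, hδ, hvc1, hvc2, fun _ _ _ => rfl⟩
  -- the first q probes
  have hq : ∀ v, (f v = 0 ∧ g v = 0 ∨ g v = 0 ∧ third f g v = 0 ∨ third f g v = 0 ∧ f v = 0) →
      Good 3 p T v (fun P'' => IsConvexPolygon (3 + H) P'' → answers σ P'' 0 = answers σ T 0) →
      ∀ j ≤ q, Good 3 p T v (fun P'' => IsConvexPolygon (3 + H) P'' →
        answers σ P'' j = answers σ T j) := by
    intro v hv hg0 j
    induction j with
    | zero => intro _; exact hg0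
    | succ j ih =>
      intro hj
      have := (ih (by omega)).probe (fun l hl => hoff j (by omega) l hl v hv)
      rwa [← answers_succ] at this
  have gaq := hq va (Or.inl ⟨hva1, hva2⟩) ga q le_rfl
  have gbq := hq vb (Or.inr (Or.inl ⟨hvb1, hvb2⟩)) gb q le_rfl
  have gcq := hq vc (Or.inr (Or.inr ⟨hvc1, hvc2⟩)) gc q le_rfl
  -- a valid line contains at most one vertex
  have hmeet : ∀ v j, Good 3 p T v (fun P'' => IsConvexPolygon (3 + H) P'' →
        answers σ P'' j = answers σ T j) → ∀ l, σ (answers σ T j) = some l →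
        (l.carrier ∩ interior T).Nonempty := by
    intro v j hG l hl
    obtain ⟨P'', hn, hp, hsub, hF⟩ := hG.exists_poly H
    have h4 := hval P'' ⟨hn, hp⟩ j l (by rw [hF hn]; exact hl)
    exact h4.mono (Set.inter_subset_inter_right _ (interior_mono hsub))
  have hab : ∀ l : Line, (l.carrier ∩ interior T).Nonempty → ¬ (va ∈ l.carrier ∧ vb ∈ l.carrier) := by
    intro l hl h
    -- both on g = 0
    refine two_vertices hfg.swap (v := va) (w := vb) ?_ hva2 hva1 hvb1 ?_ h
    · have : Tri g f = Tri f g := by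
        ext x
        constructor
        · rintro ⟨e1, e2, e3⟩
          exact ⟨e2, e1, by rw [third_apply] at e3 ⊢; linarith⟩
        · rintro ⟨e1, e2, e3⟩
          exact ⟨e2, e1, by rw [third_apply] at e3 ⊢; linarith⟩
      rw [this]; exact hl
    · rw [third_apply, hvb1] at hvb2
      intro h0
      rw [h0] at hvb2
      norm_num at hvb2
  have hac : ∀ l : Line, (l.carrier ∩ interior T).Nonempty → ¬ (va ∈ l.carrier ∧ vc ∈ l.carrier) := by
    intro l hl h
    refine two_vertices hfg (v := va) (w := vc) hl hva1 hva2 hvc2 ?_ h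
    rw [third_apply, hvc2] at hvc1
    intro h0
    rw [h0] at hvc1
    norm_num at hvc1
  have hbc : ∀ l : Line, (l.carrier ∩ interior T).Nonempty → ¬ (vb ∈ l.carrier ∧ vc ∈ l.carrier) := by
    intro l hl h
    -- both on third = 0
    have hfr := (frame_third hfg).swap
    refine two_vertices hfr (v := vb) (w := vc) ?_ hvb2 hvb1 hvc1 ?_ h
    · have : Tri (third f g) g = Tri f g := by
        rw [← tri_third f g]
        ext x
        constructor
        · rintro ⟨e1, e2, e3⟩
          exact ⟨e2, e1, by rw [third_apply] at e3 ⊢; linarith⟩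
        · rintro ⟨e1, e2, e3⟩
          exact ⟨e2, e1, by rw [third_apply] at e3 ⊢; linarith⟩
      rw [this]; exact hl
    · intro h0
      rw [third_apply, hvc2, h0] at hvc1
      norm_num at hvc1
  -- two more probes
  have step1 : ∀ v w j, (∀ l : Line, (l.carrier ∩ interior T).Nonempty →
        ¬ (v ∈ l.carrier ∧ w ∈ l.carrier)) →
      Good 3 p T v (fun P'' => IsConvexPolygon (3 + H) P'' → answers σ P'' j = answers σ T j) →
      Good 3 p T w (fun P'' => IsConvexPolygon (3 + H) P'' → answers σ P'' j = answers σ T j) →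
      Good 3 p T v (fun P'' => IsConvexPolygon (3 + H) P'' →
        answers σ P'' (j + 1) = answers σ T (j + 1)) ∨
      Good 3 p T w (fun P'' => IsConvexPolygon (3 + H) P'' →
        answers σ P'' (j + 1) = answers σ T (j + 1)) := by
    intro v w j hvw hv hw
    by_cases hc : ∀ l, σ (answers σ T j) = some l → v ∉ l.carrier
    · left
      have := hv.probe hc
      rwa [← answers_succ] at this
    · right
      push Not at hc
      obtain ⟨l, hl, hvl⟩ := hc
      have := hw.probe (fun l' hl' => by
        have : l = l' := by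
          rw [hl] at hl'
          simpa using hl'
        rw [← this]
        exact fun h => hvw l (hmeet v j hv l hl) ⟨hvl, h⟩)
      rwa [← answers_succ] at this
  -- choose two survivors after one probe, then one after two
  have hab' := step1 va vb q hab gaq gbq
  have hac' := step1 va vc q hac gaq gcq
  have hbc' := step1 vb vc q hbc gbq gcq
  rcases hab' with ha | hb
  · rcases hbc' with hb | hc
    · rcases step1 va vb (q + 1) hab ha hb with h | h
      · exact ⟨va, h⟩
      · exact ⟨vb, h⟩
    · rcases step1 va vc (q + 1) hac ha hc with h | h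
      · exact ⟨va, h⟩
      · exact ⟨vc, h⟩
  · rcases hac' with ha | hc
    · rcases step1 va vb (q + 1) hab ha hb with h | h
      · exact ⟨va, h⟩
      · exact ⟨vb, h⟩
    · rcases step1 vb vc (q + 1) hbc hb hc with h | h
      · exact ⟨vb, h⟩
      · exact ⟨vc, h⟩

/-- The lower bound, given a triangle whose vertices are missed by the first `q` probes. -/
theorem lower_of_tri {n q : ℕ} (hn : 4 ≤ n) {p : Plane} {σ : Strategy} (hval : Valid n p σ)
    {f g : Plane →ᵃ[ℝ] ℝ} (hfg : Frame f g)
    (h1 : 0 < f p) (h2 : 0 < g p) (h3 : 0 < third f g p)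
    (hoff : ∀ j < q, ∀ l, σ (answers σ (Tri f g) j) = some l →
      ∀ v, (f v = 0 ∧ g v = 0 ∨ g v = 0 ∧ third f g v = 0 ∨ third f g v = 0 ∧ f v = 0) →
        v ∉ l.carrier) :
    ∃ P1 P2, Candidate n p P1 ∧ Candidate n p P2 ∧ P1 ≠ P2 ∧
        answers σ P1 (q + 2 + (3 * (n - 3) - 2)) = answers σ P2 (q + 2 + (3 * (n - 3) - 2)) := by
  obtain ⟨v, hv⟩ := tri_start (H := n - 3) (by omega) hval hfg h1 h2 h3 hoff
  exact main_lower hval (n - 3) (by omega) 3 _ v (q + 2) _ (by omega) hv

end Pool.MPf9c708
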