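import Pool.Agent.Lib.MP_f9c708_lc.Start

namespace Pool.MPf9c708

open Set

/-- Affine coordinates `s, t` centred at `p` with axes `u1, u2`. -/
structure CFrame (p u1 u2 : Plane) (s t : Plane →ᵃ[ℝ] ℝ) : Prop where
  frame : Frame s t
  hs : ∀ x y : ℝ, s (p + x • u1 + y • u2) = x
  ht : ∀ x y : ℝ, t (p + x • u1 + y • u2) = y

/-- The cross product of two vectors of the plane. -/
def cr (u v : Plane) : ℝ := u 0 * v 1 - u 1 * v 0

theorem exists_cframe (p u1 u2 : Plane) (h : cr u1 u2 ≠ 0) :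
    ∃ s t : Plane →ᵃ[ℝ] ℝ, CFrame p u1 u2 s t := by
  have hcoord : ∀ i : Fin 2, ∃ c : Plane →ᵃ[ℝ] ℝ, ∀ x, c x = x i := by
    intro i
    refine ⟨(EuclideanSpace.proj i : Plane →L[ℝ] ℝ).toLinearMap.toAffineMap, ?_⟩
    intro x
    rfl
  obtain ⟨c0, hc0⟩ := hcoord 0
  obtain ⟨c1, hc1⟩ := hcoord 1
  let s : Plane →ᵃ[ℝ] ℝ := (cr u1 u2)⁻¹ • ((u2 1) • (c0 - AffineMap.const ℝ Plane (p 0)) -
    (u2 0) • (c1 - AffineMap.const ℝ Plane (p 1)))
  let t : Plane →ᵃ[ℝ] ℝ := (cr u1 u2)⁻¹ • ((u1 0) • (c1 - AffineMap.const ℝ Plane (p 1)) -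
    (u1 1) • (c0 - AffineMap.const ℝ Plane (p 0)))
  have hs : ∀ x, s x = (cr u1 u2)⁻¹ * (u2 1 * (x 0 - p 0) - u2 0 * (x 1 - p 1)) := by
    intro x
    simp [s, hc0, hc1]
  have ht : ∀ x, t x = (cr u1 u2)⁻¹ * (u1 0 * (x 1 - p 1) - u1 1 * (x 0 - p 0)) := by
    intro x
    simp [t, hc0, hc1]
  have hs' : ∀ x y : ℝ, s (p + x • u1 + y • u2) = x := by
    intro x y
    rw [hs]
    simp only [PiLp.add_apply, PiLp.smul_apply, smul_eq_mul]
    rw [inv_mul_eq_iff_eq_mul₀ h]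
    unfold cr
    ring
  have ht' : ∀ x y : ℝ, t (p + x • u1 + y • u2) = y := by
    intro x y
    rw [ht]
    simp only [PiLp.add_apply, PiLp.smul_apply, smul_eq_mul]
    rw [inv_mul_eq_iff_eq_mul₀ h]
    unfold cr
    ring
  refine ⟨s, t, ⟨⟨?_, ?_⟩, hs', ht'⟩⟩
  · intro x y h1 h2
    rw [hs, hs] at h1
    rw [ht, ht] at h2
    have h1' := mul_left_cancel₀ (inv_ne_zero h) h1
    have h2' := mul_left_cancel₀ (inv_ne_zero h) h2
    unfold cr at h
    have e0 : (u1 0 * u2 1 - u1 1 * u2 0) * (x 0 - y 0) = 0 := by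
      linear_combination (u1 0) * h1' + (u2 0) * h2'
    have e1 : (u1 0 * u2 1 - u1 1 * u2 0) * (x 1 - y 1) = 0 := by
      linear_combination (u1 1) * h1' + (u2 1) * h2'
    have e0' := (mul_eq_zero.mp e0).resolve_left h
    have e1' := (mul_eq_zero.mp e1).resolve_left h
    ext i
    fin_cases i
    · show x 0 = y 0
      linarith
    · show x 1 = y 1
      linarith
  · intro a b
    exact ⟨p + a • u1 + b • u2, hs' a b, ht' a b⟩

theorem CFrame.eq {p u1 u2 : Plane} {s t : Plane →ᵃ[ℝ] ℝ} (h : CFrame p u1 u2 s t) (x : Plane) :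
    x = p + (s x) • u1 + (t x) • u2 :=
  h.frame.inj _ _ (by rw [h.hs]) (by rw [h.ht])

theorem CFrame.s_p {p u1 u2 : Plane} {s t : Plane →ᵃ[ℝ] ℝ} (h : CFrame p u1 u2 s t) : s p = 0 := by
  have := h.hs 0 0
  simpa using this

theorem CFrame.t_p {p u1 u2 : Plane} {s t : Plane →ᵃ[ℝ] ℝ} (h : CFrame p u1 u2 s t) : t p = 0 := by
  have := h.ht 0 0
  simpa using this

/-- A triangle around `p` given by three half planes in central coordinates. -/
theorem mk_tri {p u1 u2 : Plane} {s t : Plane →ᵃ[ℝ] ℝ} (h : CFrame p u1 u2 s t)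
    {α1 α2 β1 β2 P Q η : ℝ} (hΔ : 0 < α1 * β2 - α2 * β1) (hx : 0 < P * β2 - Q * β1)
    (hy : 0 < α1 * Q - α2 * P) (hη : 0 < η) :
    ∃ f g : Plane →ᵃ[ℝ] ℝ, ∃ ca cb cc : ℝ, 0 < ca ∧ 0 < cb ∧ 0 < cc ∧
      (∀ x, f x = ca * (1 - α1 * s x - α2 * t x)) ∧
      (∀ x, g x = cb * (1 - β1 * s x - β2 * t x)) ∧
      (∀ x, third f g x = cc * (η + P * s x + Q * t x)) ∧ Frame f g := by
  set Δ := α1 * β2 - α2 * β1 with hΔd
  set x0 := P * β2 - Q * β1 with hx0
  set y0 := α1 * Q - α2 * P with hy0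
  have hK : 0 < x0 + y0 + η * Δ := by positivity
  set K := x0 + y0 + η * Δ with hKd
  let f : Plane →ᵃ[ℝ] ℝ := (x0 / K) • (AffineMap.const ℝ Plane 1 - α1 • s - α2 • t)
  let g : Plane →ᵃ[ℝ] ℝ := (y0 / K) • (AffineMap.const ℝ Plane 1 - β1 • s - β2 • t)
  have hf : ∀ x, f x = (x0 / K) * (1 - α1 * s x - α2 * t x) := by
    intro x; simp [f]
  have hg : ∀ x, g x = (y0 / K) * (1 - β1 * s x - β2 * t x) := by
    intro x; simp [g]
  refine ⟨f, g, x0 / K, y0 / K, Δ / K, div_pos hx hK, div_pos hy hK, div_pos hΔ hK, hf, hg, ?_,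
    ?_, ?_⟩
  · intro x
    rw [third_apply, hf, hg]
    have hK' : K ≠ 0 := hK.ne'
    field_simp
    rw [hKd, hx0, hy0, hΔd]
    ring
  · intro x y h1 h2
    rw [hf, hf] at h1
    rw [hg, hg] at h2
    have h1' := mul_left_cancel₀ (div_pos hx hK).ne' h1
    have h2' := mul_left_cancel₀ (div_pos hy hK).ne' h2
    apply h.frame.inj
    · have : Δ * (s x - s y) = 0 := by rw [hΔd]; linear_combination (-β2) * h1' + α2 * h2'
      have := (mul_eq_zero.mp this).resolve_left hΔ.ne'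
      linarith
    · have : Δ * (t x - t y) = 0 := by rw [hΔd]; linear_combination β1 * h1' - α1 * h2'
      have := (mul_eq_zero.mp this).resolve_left hΔ.ne'
      linarith
  · intro a b
    -- solve α·x = 1 - a K / x0, β·x = 1 - b K / y0
    set A := 1 - a * K / x0 with hA
    set B := 1 - b * K / y0 with hB
    refine ⟨p + ((A * β2 - α2 * B) / Δ) • u1 + ((α1 * B - A * β1) / Δ) • u2, ?_, ?_⟩
    · rw [hf, h.hs, h.ht]
      have e : α1 * ((A * β2 - α2 * B) / Δ) + α2 * ((α1 * B - A * β1) / Δ) = A := by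
        field_simp
        rw [hΔd]
        ring
      have e2 : 1 - α1 * ((A * β2 - α2 * B) / Δ) - α2 * ((α1 * B - A * β1) / Δ) = 1 - A := by
        linarith
      rw [e2, hA]
      have := hx.ne'
      have := hK.ne'
      field_simp
      ring
    · rw [hg, h.hs, h.ht]
      have e : β1 * ((A * β2 - α2 * B) / Δ) + β2 * ((α1 * B - A * β1) / Δ) = B := by
        field_simp
        rw [hΔd]
        ring
      have e2 : 1 - β1 * ((A * β2 - α2 * B) / Δ) - β2 * ((α1 * B - A * β1) / Δ) = 1 - B := by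
        linarith
      rw [e2, hB]
      have := hy.ne'
      have := hK.ne'
      field_simp
      ring

/-- `l` is the line through `p` with unit direction `u` (or its opposite). -/
def CentralLine (p u : Plane) (l : Line) : Prop := l.carrier = {x | ∃ τ : ℝ, x = p + τ • u}

theorem chord_eq_one {p u : Plane} (hu : ‖u‖ = 1) {l : Line} (hl : CentralLine p u l)
    {T : Set Plane} {r : ℝ} (hT : ∀ τ : ℝ, p + τ • u ∈ T ↔ -r ≤ τ ∧ τ ≤ 1 - r) :
    chordLength l T = 1 := by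
  unfold chordLength
  have himg : l.carrier ∩ T = (fun τ : ℝ => p + τ • u) '' Set.Icc (-r) (1 - r) := by
    rw [show l.carrier = {x | ∃ τ : ℝ, x = p + τ • u} from hl]
    ext x
    constructor
    · rintro ⟨⟨τ, rfl⟩, hx⟩
      exact ⟨τ, (hT τ).mp hx, rfl⟩
    · rintro ⟨τ, hτ, rfl⟩
      exact ⟨⟨τ, rfl⟩, (hT τ).mpr hτ⟩
  have hiso : Isometry (fun τ : ℝ => p + τ • u) := by
    apply Isometry.of_dist_eq
    intro a b
    rw [dist_add_left, dist_eq_norm, ← sub_smul, norm_smul, hu, mul_one, Real.dist_eq,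
      Real.norm_eq_abs]
  rw [himg, hiso.diam_image, Real.diam_Icc (by linarith)]
  ring

/-- Description of a central line in terms of coordinates. -/
theorem central_of_mem {p : Plane} {l : Line} (hp : p ∈ l.carrier) :
    ∃ u : Plane, ‖u‖ = 1 ∧ CentralLine p u l := by
  have hn : ‖l.dir‖ ≠ 0 := norm_ne_zero_iff.mpr l.dir_ne
  refine ⟨‖l.dir‖⁻¹ • l.dir, ?_, ?_⟩
  · rw [norm_smul, norm_inv, norm_norm, inv_mul_cancel₀ hn]
  · obtain ⟨τ0, hτ0⟩ := hp
    unfold CentralLine Line.carrier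
    ext x
    constructor
    · rintro ⟨τ, rfl⟩
      refine ⟨(τ - τ0) * ‖l.dir‖, ?_⟩
      rw [smul_smul, mul_assoc, mul_inv_cancel₀ hn, mul_one, hτ0]
      module
    · rintro ⟨τ, rfl⟩
      refine ⟨τ0 + τ * ‖l.dir‖⁻¹, ?_⟩
      rw [smul_smul, hτ0]
      module

theorem CentralLine.neg {p u : Plane} {l : Line} (h : CentralLine p u l) :
    CentralLine p (-u) l := by
  unfold CentralLine at *
  rw [h]
  ext x
  constructor
  · rintro ⟨τ, rfl⟩
    exact ⟨-τ, by module⟩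
  · rintro ⟨τ, rfl⟩
    exact ⟨-τ, by module⟩

end Pool.MPf9c708
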